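import Pool.Agent.LibEQ34.Defs
import Pool.Agent.LibER34.CDefs
import Pool.Agent.LibAC34.StmtC

/-!
The groups of cycles given by matrices over orders, on products of elliptic curves: definitions.
-/

open WeierstrassCurve Pool.Agent.LibBH2 Pool.Agent.LibIG50 Pool.Agent.LibCHd Pool.Agent.LibGG
  Pool.Agent.LibAC34 Pool.Agent.LibAF11 Pool.Agent.LibER34
open scoped Classical ComplexConjugate

namespace Pool.Agent.LibEQ34

variable {K : Type} [Field K] [Algebra K Qb] {n r D : ℕ}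

/-- the pairs of a matrix over the orders and a point of `A` -/
abbrev PM (E : Fin n → WeierstrassCurve K) (κ : Fin r → Fin n) (D : ℕ) : Type :=
  Matrix (Fin r) (Fin D) (ℤ × ℤ) × Pts (prd E κ)

/-- the class of a combination -/
noncomputable def clM (c : CM) {E : Fin n → WeierstrassCurve K} (κ : Fin r → Fin n)
    {μ : Fin D → Fin n} {F : Type} [Field F] [Algebra Qb F]
    (ξ : ∀ a, ((prd E μ a)⁄F).toAffine.Point) : (PM E κ D →₀ ℤ) →+ CH (prd E κ) (pt0 Qb) D :=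
  Finsupp.liftAddHom fun p => zmultiplesHom _
    (clC c.w (Algebra.ofId Qb F) D (fun i => Hm.id (prd E κ i)) ξ (org _) p.1 p.2)

/-- the intersection number with the kernel of `Mᵀ` -/
noncomputable def nmM (c : CM) {E : Fin n → WeierstrassCurve K} {κ : Fin r → Fin n}
    (M : Matrix (Fin r) (Fin D) (ℤ × ℤ)) : (PM E κ D →₀ ℤ) →+ ℝ :=
  Finsupp.liftAddHom fun p => zmultiplesHom _
    (Complex.normSq ((cx c (prd E κ) M).transpose * cx c (prd E κ) p.1).det)

/-- the conjugation of the rows of the colours `l` with `δ l` -/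
noncomputable def cjm (c : CM) (E : Fin n → WeierstrassCurve K) (κ : Fin r → Fin n)
    (δ : Fin n → Bool) (N : Matrix (Fin r) (Fin D) (ℤ × ℤ)) : Matrix (Fin r) (Fin D) (ℤ × ℤ) :=
  fun i a => pc (c.t ((E (κ i))⁄Qb)) (δ (κ i)) (N i a)

/-- the action of `σ`, which conjugates the homomorphisms between powers of `E l` according to `δ l` -/
noncomputable def acM (c : CM) (E : Fin n → WeierstrassCurve K) (κ : Fin r → Fin n)
    (δ : Fin n → Bool) (σ : Qb ≃ₐ[K] Qb) (p : PM E κ D) : PM E κ D :=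
  (cjm c E κ δ p.1, fun i => gal σ (p.2 i))

/-- the homologically trivial combinations over `K` of type `μ` -/
def ZM (Γ : Grid) (c : CM) (E : Fin n → WeierstrassCurve K)
    (e : (Qb ≃ₐ[K] Qb) → Fin n → Bool) (κ : Fin r → Fin n) (μ : Fin D → Fin n) :
    AddSubgroup (PM E κ D →₀ ℤ) where
  carrier := {b | (∀ p ∈ b.support,
      MatC c (prd E μ) (prd E κ) p.1 ∧ ∀ i, p.2 i ∈ Γ (prd E κ i)) ∧
    (∀ σ : Qb ≃ₐ[K] Qb, b.mapDomain (acM c E κ (e σ) σ) = b) ∧
    ∀ M, MatC c (prd E μ) (prd E κ) M → nmM c M b = 0}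
  zero_mem' := ⟨fun p hp => absurd hp (by simp), fun σ => Finsupp.mapDomain_zero,
    fun M _ => map_zero _⟩
  add_mem' := by
    rintro b b' ⟨h1, h2, h3⟩ ⟨h1', h2', h3'⟩
    refine ⟨fun p hp => ?_, fun σ => ?_, fun M hM => ?_⟩
    · rcases Finset.mem_union.1 (Finsupp.support_add hp) with h | h
      · exact h1 p h
      · exact h1' p h
    · rw [Finsupp.mapDomain_add, h2, h2']
    · rw [map_add, h3 M hM, h3' M hM, add_zero]
  neg_mem' := by
    rintro b ⟨h1, h2, h3⟩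
    refine ⟨fun p hp => h1 p (by rwa [Finsupp.support_neg] at hp), fun σ => ?_, fun M hM => ?_⟩
    · have h4 := (Finsupp.mapDomain.addMonoidHom (M := ℤ)
        (acM c E κ (e σ) σ : PM E κ D → PM E κ D)).map_neg b
      change Finsupp.mapDomain _ (-b) = -Finsupp.mapDomain _ b at h4
      rw [h4, h2]
    · rw [map_neg, h3 M hM, neg_zero]

/-- the class of a family of combinations of all types -/
noncomputable def clT (c : CM) {E : Fin n → WeierstrassCurve K} (κ : Fin r → Fin n)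
    {F : (Fin D → Fin n) → Type} [∀ μ, Field (F μ)] [∀ μ, Algebra Qb (F μ)]
    (ξ : ∀ μ a, ((prd E μ a)⁄(F μ)).toAffine.Point) :
    (∀ _ : Fin D → Fin n, PM E κ D →₀ ℤ) →+ CH (prd E κ) (pt0 Qb) D :=
  ∑ μ, (clM c κ (ξ μ)).comp (Pi.evalAddMonoidHom (fun _ : Fin D → Fin n => PM E κ D →₀ ℤ) μ)

/-- the families of homologically trivial combinations over `K` of the types `μ 1 ≤ ... ≤ μ D` -/
def ZT (Γ : Grid) (c : CM) (E : Fin n → WeierstrassCurve K)
    (e : (Qb ≃ₐ[K] Qb) → Fin n → Bool) (κ : Fin r → Fin n) (D : ℕ) :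
    AddSubgroup (∀ _ : Fin D → Fin n, PM E κ D →₀ ℤ) where
  carrier := {b | ∀ μ, b μ ∈ ZM Γ c E e κ μ ∧ (¬ Monotone μ → b μ = 0)}
  zero_mem' := fun μ => ⟨zero_mem _, fun _ => rfl⟩
  add_mem' := fun h h' μ => ⟨add_mem (h μ).1 (h' μ).1, fun hμ => by
    rw [Pi.add_apply, (h μ).2 hμ, (h' μ).2 hμ, add_zero]⟩
  neg_mem' := fun h μ => ⟨neg_mem (h μ).1, fun hμ => by rw [Pi.neg_apply, (h μ).2 hμ, neg_zero]⟩

/-- the rank of the group of the classes -/
noncomputable def rkT (Γ : Grid) (c : CM) (E : Fin n → WeierstrassCurve K)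
    (e : (Qb ≃ₐ[K] Qb) → Fin n → Bool) (κ : Fin r → Fin n) {D : ℕ}
    {F : (Fin D → Fin n) → Type} [∀ μ, Field (F μ)] [∀ μ, Algebra Qb (F μ)]
    (ξ : ∀ μ a, ((prd E μ a)⁄(F μ)).toAffine.Point) : Cardinal :=
  Module.rank ℤ ((clT c κ ξ).comp (ZT Γ c E e κ D).subtype).range

/-- the sign of a Boolean -/
def sg (b : Bool) : ℤ := if b then -1 else 1

/-- the group of the points `P` of `Γ E_i` with `σ P = ∏ (l ∈ T) sg (e σ l) * P` -/
noncomputable def GTg (Γ : Grid) (E : Fin n → WeierstrassCurve K)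
    (e : (Qb ≃ₐ[K] Qb) → Fin n → Bool) (i : Fin n) (T : Finset (Fin n)) :
    AddSubgroup ((E i)⁄Qb).toAffine.Point where
  carrier := {P | P ∈ Γ ((E i)⁄Qb) ∧ ∀ σ : Qb ≃ₐ[K] Qb, gal σ P = (∏ l ∈ T, sg (e σ l)) • P}
  zero_mem' := ⟨zero_mem _, fun σ => (map_zero _).trans (zsmul_zero _).symm⟩
  add_mem' := fun {a b} ha hb => ⟨add_mem ha.1 hb.1, fun σ =>
    (map_add (gal σ) a b).trans ((congrArg₂ (· + ·) (ha.2 σ) (hb.2 σ)).trans
      (zsmul_add _ _ _).symm)⟩
  neg_mem' := fun {a} ha => ⟨neg_mem ha.1, fun σ =>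
    (map_neg (gal σ) a).trans ((congrArg Neg.neg (ha.2 σ)).trans
      (map_neg (zsmulAddGroupHom _) a).symm)⟩

end Pool.Agent.LibEQ34
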