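import Pool.Agent.LibAF11.Defs

/-!
The ranks of the groups of homologically trivial cycles over a field of algebraic numbers on the products
of elliptic curves: definitions.
-/

open WeierstrassCurve Pool.Agent.LibBH2 Pool.Agent.LibIG50 Pool.Agent.LibCHd Pool.Agent.LibGG
  Pool.Agent.LibAC34 Pool.Agent.LibAF11
open scoped Classical

namespace Pool.Agent.LibEQ34

/-- the rank of the subgroup generated by the set `S` -/
noncomputable def rk {G : Type} [AddCommGroup G] (S : Set G) : Cardinal :=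
  Module.rank ℤ (AddSubgroup.closure S)

/-- `P` belongs to the group `Γ E` -/
def Mb (Γ : Grid) {E : WeierstrassCurve Qb} (P : E.toAffine.Point) : Prop := P ∈ Γ E

section cycles

variable {D r s : ℕ} {V : Fin D → WeierstrassCurve Qb} {W : Fin r → WeierstrassCurve Qb}
  {W' : Fin s → WeierstrassCurve Qb}

/-- the pairs `(N, g)` of a homomorphism `N` from `B = V 1 × ... × V D` to `A = W 1 × ... × W r` and a
point `g` of `A` -/
abbrev Prs (V : Fin D → WeierstrassCurve Qb) (W : Fin r → WeierstrassCurve Qb) : Type 1 :=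
  Homs V W × Pts W

variable {F : Type} [Field F] [Algebra Qb F]

/-- The class in `CH_D (A)` of the cycle `c = ∑ m (N_* B + g)` on `A`, a formal integral combination of
pairs `(N, g)`; `ξ` is the generic point of `B`. -/
noncomputable def clF (ξ : ∀ a, ((V a)⁄F).toAffine.Point) (c : Prs V W →₀ ℤ) :
    CH W (pt0 Qb) D :=
  c.sum fun p m => m • QuotientAddGroup.mk (cyc (pntH (Algebra.ofId Qb F) ξ (org W) p.1 p.2))

/-- the class of `f_* c` in `CH_D (A')`, for a homomorphism `f` from `A` to `A'` -/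
noncomputable def dirF (f : Homs W W') (ξ : ∀ a, ((V a)⁄F).toAffine.Point) (c : Prs V W →₀ ℤ) :
    CH W' (pt0 Qb) D :=
  c.sum fun p m => m • QuotientAddGroup.mk
    (cyc (imgH f (pntH (Algebra.ofId Qb F) ξ (org W) p.1 p.2)))

end cycles

/-- the homomorphism `φ` maps the point `P` to the point `Q` -/
def Sd {E E' : WeierstrassCurve Qb} (φ : Hom E E') (P : E.toAffine.Point)
    (Q : E'.toAffine.Point) : Prop :=
  φ.f Qb (constPt Qb P) = constPt Qb Q

/-- the homomorphisms from `E` to `E'` map `Γ E` to `Γ E'` -/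
def Stb (Γ : Grid) (E E' : WeierstrassCurve Qb) : Prop :=
  ∀ (φ : Hom E E') (P : E.toAffine.Point) (Q : E'.toAffine.Point), Mb Γ P → Sd φ P Q → Mb Γ Q

/-- `End (E) ⊗ ℚ = ℚ`: some multiple of every endomorphism of `E` is multiplication by an integer -/
def NoCM (E : WeierstrassCurve Qb) : Prop :=
  ∀ φ : Hom E E, ∃ q n : ℤ, q ≠ 0 ∧
    ∀ (F : Type) [Field F] [Algebra Qb F] (P : (E⁄F).toAffine.Point), q • φ.f F P = n • P

variable {K : Type} [Field K] [Algebra K Qb]

/-- the conjugate `σ P` of the point `P` -/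
noncomputable def gl {E : WeierstrassCurve K} (σ : Qb ≃ₐ[K] Qb) (P : (E⁄Qb).toAffine.Point) :
    (E⁄Qb).toAffine.Point :=
  gal σ P

/-- `φ'` is the conjugate of the homomorphism `φ` under `σ`: if `φ` maps `P` to `Q` then `φ'` maps
`σ P` to `σ Q` -/
def Cj {E E' : WeierstrassCurve K} (σ : Qb ≃ₐ[K] Qb) (φ φ' : Hom (E⁄Qb) (E'⁄Qb)) : Prop :=
  ∀ (P : (E⁄Qb).toAffine.Point) (Q : (E'⁄Qb).toAffine.Point), Sd φ P Q → Sd φ' (gl σ P) (gl σ Q)

/-- the sign `χ_E (σ)`: `1` if `σ` commutes with the endomorphisms of `E`, `-1` otherwise -/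
noncomputable def chi (E : WeierstrassCurve K) (σ : Qb ≃ₐ[K] Qb) : ℤ :=
  if ∀ φ : Hom (E⁄Qb) (E⁄Qb), Cj σ φ φ then 1 else -1

variable {n r D : ℕ}

/-- the curves `E (κ x)` over `Qb`; `A = prd E κ` is their product -/
noncomputable abbrev prd (E : Fin n → WeierstrassCurve K) {r : ℕ} (κ : Fin r → Fin n) :
    Fin r → WeierstrassCurve Qb := fun x => (E (κ x))⁄Qb

/-- The cycles `c = ∑ c μ` on `A = prd E κ`, `c μ = ∑ m (N_* B + g)` with homomorphisms `N` from
`B = prd E μ` to `A` and points `g` of `A` with components in the groups `Γ`, which are defined over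
`K` (the elements of the Galois group of `K` permute the terms of `c μ`) and homologically trivial (`f_* c`
is torsion for all homomorphisms `f` from `A` to all the products `prd E ν` of dimension `D`). Here
`μ 1 ≤ ... ≤ μ D`. -/
def ZP (Γ : Grid) (E : Fin n → WeierstrassCurve K) (κ : Fin r → Fin n)
    {F : (Fin D → Fin n) → Type} [∀ μ, Field (F μ)] [∀ μ, Algebra Qb (F μ)]
    (ξ : ∀ μ a, ((prd E μ a)⁄(F μ)).toAffine.Point) :
    Set (∀ μ : Fin D → Fin n, Prs (prd E μ) (prd E κ) →₀ ℤ) :=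
  {c | (∀ μ, ∀ p ∈ (c μ).support, Monotone μ ∧ ∀ i, Mb Γ (p.2 i)) ∧
    (∀ μ, ∀ σ : Qb ≃ₐ[K] Qb, ∃ φ : Prs (prd E μ) (prd E κ) → Prs (prd E μ) (prd E κ),
      (∀ p ∈ (c μ).support, (∀ i a, Cj σ (p.1 i a) ((φ p).1 i a)) ∧ ∀ i, (φ p).2 i = gl σ (p.2 i)) ∧
        (c μ).mapDomain φ = c μ) ∧
    ∀ (ν : Fin D → Fin n) (f : Homs (prd E κ) (prd E ν)), IsOfFinAddOrder (∑ μ, dirF f (ξ μ) (c μ))}

/-- the points `P` of `Γ E_i` such that `σ P` is the product of `P` and the signs `χ_l (σ)`, `l ∈ T` -/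
def GT (Γ : Grid) (E : Fin n → WeierstrassCurve K) (i : Fin n) (T : Finset (Fin n)) :
    Set ((E i)⁄Qb).toAffine.Point :=
  {P | Mb Γ P ∧ ∀ σ : Qb ≃ₐ[K] Qb, gl σ P = (∏ l ∈ T, chi (E l) σ) • P}

/-- the number of the `x` with `κ x = i`: how often the curve `E i` occurs in `prd E κ` -/
def num {r : ℕ} (κ : Fin r → Fin n) (i : Fin n) : ℕ := (Finset.univ.filter fun x => κ x = i).card

/-- `C(r,d) C(r,d+1) - C(r,d-1) C(r,d+2)` if `End (E) ⊗ ℚ = ℚ` (where `C(r,d-1) = C(r,r+1-d)`),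
`C(r,d) C(r,d+1)` if `E` has complex multiplications -/
noncomputable def bb (E : WeierstrassCurve K) (r d : ℕ) : ℕ :=
  r.choose d * r.choose (d + 1) -
    if NoCM (E⁄Qb) then r.choose (r + 1 - d) * r.choose (d + 2) else 0

/-- with `C = C(r,d)`: `C ^ 2 - C(r,d-1) C(r,d+1)` if `End (E) ⊗ ℚ = ℚ`, `C (C + 1) / 2` otherwise; if `t`
is true, `0` and `C (C - 1) / 2` -/
noncomputable def hh (E : WeierstrassCurve K) (t : Prop) (r d : ℕ) : ℕ :=
  if NoCM (E⁄Qb) then (if t then 0 else r.choose d ^ 2 - r.choose (r + 1 - d) * r.choose (d + 1))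
  else (if t then r.choose d else r.choose d + 1).choose 2

/-- the sum over all `μ 1 ≤ ... ≤ μ D` of `b_i ∏ h_l`, `l ≠ i`, where `b_i` and `h_l` (with sign
`+` for `l` not in `T` and sign `-` for `l ∈ T`) are the numbers `bb` and `hh` for `r` and `d` the numbers
of the factors `E_l` of `A = prd E κ` and of `B = prd E μ` -/
noncomputable def mlt (E : Fin n → WeierstrassCurve K) (κ : Fin r → Fin n) (D : ℕ) (i : Fin n)
    (T : Finset (Fin n)) : ℕ :=
  ∑ μ : Fin D → Fin n with Monotone μ, bb (E i) (num κ i) (num μ i) *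
    ∏ l ∈ Finset.univ.erase i, hh (E l) (l ∈ T) (num κ l) (num μ l)

/-- For every product `A` of the curves `E i` and all `D` the classes in `CH_D (A)` of the cycles `c`
above generate a group of rank `m r κ D`; `ξ μ` is a generic point of `B = prd E μ`. -/
def RankIs (Γ : Grid) (E : Fin n → WeierstrassCurve K)
    (m : ∀ r : ℕ, (Fin r → Fin n) → ℕ → Cardinal) : Prop :=
  ∀ (r : ℕ) (κ : Fin r → Fin n) (D : ℕ) (F : (Fin D → Fin n) → Type) [∀ μ, Field (F μ)]
    [∀ μ, Algebra Qb (F μ)] (ξ : ∀ μ a, ((prd E μ a)⁄(F μ)).toAffine.Point),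
    (∀ μ, IsGen 0 (Algebra.ofId Qb (F μ)) (prd E μ) (ξ μ)) →
      rk ((fun c => ∑ μ, clF (ξ μ) (c μ)) '' ZP Γ E κ ξ) = m r κ D

/-- Let `E 1, ..., E n` be elliptic curves over `K`, pairwise not isogenous over `Qb`, each of them
without complex multiplications or with a group `Γ E_i` which is preserved by them. For every product
`A` of these curves the rank is
`∑ mlt i T * rank {P ∈ Γ E_i | σ P = ∏ (l ∈ T) χ_l (σ) * P}`, the sum over all `i` and all sets `T` of
numbers `l ≠ i`. -/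
def Ranks (K : Type) [Field K] [Algebra K Qb] (Γ : Grid) : Prop :=
  ∀ (n : ℕ) (E : Fin n → WeierstrassCurve K), (∀ i, (E i).IsElliptic) →
    (∀ i, NoCM ((E i)⁄Qb) ∨ Stb Γ ((E i)⁄Qb) ((E i)⁄Qb)) →
    (∀ i j, i ≠ j → ∀ (φ : Hom ((E i)⁄Qb) ((E j)⁄Qb)) P Q, Sd φ P Q → Q = 0) →
    RankIs Γ E fun _ κ D =>
      ∑ i, ∑ T ∈ (Finset.univ.erase i).powerset, mlt E κ D i T * rk (GT Γ E i T)

/-- all the groups `Γ W`, `W` elliptic, have infinite rank and are saturated -/
def Inf (Γ : Grid) : Prop :=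
  ∀ W : WeierstrassCurve Qb, W.IsElliptic →
    Cardinal.aleph0 ≤ rk {P : W.toAffine.Point | Mb Γ P} ∧
    ∀ (R : W.toAffine.Point) (n : ℕ), n ≠ 0 → Mb Γ (n • R) → Mb Γ R

/-- the groups `Γ E` of the elliptic curves over `K` are stable under the Galois group of `K` -/
def GalS (K : Type) [Field K] [Algebra K Qb] (Γ : Grid) : Prop :=
  ∀ E : WeierstrassCurve K, E.IsElliptic → ∀ (σ : Qb ≃ₐ[K] Qb) (R : (E⁄Qb).toAffine.Point),
    Mb Γ R → Mb Γ (gl σ R)

end Pool.Agent.LibEQ34
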