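import Pool.Agent.LibEQ34.Defs

/-!
The statement of the final theorem.
-/

open WeierstrassCurve Pool.Agent.LibBH2 Pool.Agent.LibIG50 Pool.Agent.LibCHd Pool.Agent.LibGG
  Pool.Agent.LibAC34 Pool.Agent.LibAF11 Pool.Agent.LibEQ34
open scoped Classical

namespace Pool.Agent.LibEQ34

def Goal : Prop :=
    (∀ Γ : Grid, PwC Γ → ∀ (K : Type) [Field K] [Algebra K Qb], Ranks K Γ) ∧
    (∃ (S : Set (WeierstrassCurve ℚ)) (Γ : Grid), S.Infinite ∧ PwC Γ ∧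
      (∀ E E' : WeierstrassCurve Qb, Stb Γ E E') ∧
      (∀ E ∈ S, E.IsElliptic ∧ NoCM (E⁄Qb) ∧ Module.rank ℤ E.toAffine.Point = 1 ∧
        (∀ P : E.toAffine.Point, Mb Γ (constPt Qb P : (E⁄Qb).toAffine.Point)) ∧
        ∀ E' ∈ S, E ≠ E' → ∀ (φ : Hom (E⁄Qb) (E'⁄Qb)) P Q, Sd φ P Q → Q = 0) ∧
      ∀ (n : ℕ) (E : Fin n → WeierstrassCurve ℚ), Function.Injective E → (∀ i, E i ∈ S) →
        RankIs Γ E fun _ κ D => ∑ i, (mlt E κ D i ∅ : Cardinal)) ∧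
    (∀ (K : Type) [Field K] [NumberField K] [Algebra K Qb] (E : WeierstrassCurve K)
      [E.IsElliptic], Module.rank ℤ E.toAffine.Point ≤ 1 ∨
        (¬ NoCM (E⁄Qb) ∧ (∀ σ : Qb ≃ₐ[K] Qb, chi E σ = 1) ∧ Module.rank ℤ E.toAffine.Point ≤ 2) →
      ∃ Γ : Grid, PwC Γ ∧ (∀ E E' : WeierstrassCurve Qb, Stb Γ E E') ∧
        (∀ P : E.toAffine.Point, Mb Γ (constPt Qb P : (E⁄Qb).toAffine.Point)) ∧
        RankIs Γ (fun _ : Fin 1 => E) fun r _ D =>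
          (bb E r D : Cardinal) * Module.rank ℤ E.toAffine.Point) ∧
    ∀ (K : Type) [Field K] [NumberField K] [Algebra K Qb] (E₀ : WeierstrassCurve K)
      [E₀.IsElliptic] (T P : E₀.toAffine.Point), T ≠ 0 → 2 • T = 0 →
      ∃ Γ : Grid, PwC Γ ∧ (∀ E E' : WeierstrassCurve Qb, Stb Γ E E') ∧
        Mb Γ (constPt Qb P : (E₀⁄Qb).toAffine.Point) ∧ Inf Γ ∧ GalS K Γ

end Pool.Agent.LibEQ34
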