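import Pool.Agent.LibEQ34.T6
import Pool.Agent.LibNI34.Fin
import Pool.Agent.LibNC34.Fin
import Pool.Agent.LibRk1.Clique
import Pool.Agent.LibER66.RankOne

/-!
Infinitely many curves of rank one, pairwise not isogenous.
-/

open WeierstrassCurve Pool.Agent.LibBH2 Pool.Agent.LibIG50 Pool.Agent.LibCHd Pool.Agent.LibGG
  Pool.Agent.LibAC34 Pool.Agent.LibAF11 Pool.Agent.LibER34 Rk1
open scoped Classical

namespace Pool.Agent.LibEQ34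

theorem exists_pw : ∃ Γ : Grid, Pw Γ ∧ ∀ W ∈ rkSet,
    ∀ P : W.toAffine.Point, constPt Qb P ∈ Γ (W⁄Qb) := by
  let Γ : Grid := fun W => if h : ∃ W₀ : WeierstrassCurve ℚ, W₀ ∈ rkSet ∧ W₀⁄Qb = W then
    h.choose_spec.2 ▸ (constHom Qb h.choose).range else ⊥
  have hcast : ∀ (W₁ W₀ : WeierstrassCurve ℚ) (h : W₁⁄Qb = W₀⁄Qb),
      (h ▸ (constHom Qb W₁).range : AddSubgroup (W₀⁄Qb).toAffine.Point) =
        (constHom Qb W₀).range := by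
    intro W₁ W₀ h
    have h1 : W₁ = W₀ := WeierstrassCurve.map_injective (algebraMap ℚ Qb).injective h
    subst h1
    rfl
  have hΓ : ∀ W₀ ∈ rkSet, Γ (W₀⁄Qb) = (constHom Qb W₀).range := by
    intro W₀ hW₀
    have h : ∃ W₁ : WeierstrassCurve ℚ, W₁ ∈ rkSet ∧ W₁⁄Qb = W₀⁄Qb := ⟨W₀, hW₀, rfl⟩
    have h1 : Γ (W₀⁄Qb) = h.choose_spec.2 ▸ (constHom Qb h.choose).range := dif_pos h
    rw [h1]
    exact hcast _ _ _
  have hbot : ∀ W, (¬ ∃ W₀ : WeierstrassCurve ℚ, W₀ ∈ rkSet ∧ W₀⁄Qb = W) → Γ W = ⊥ :=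
    fun W h => dif_neg h
  refine ⟨Γ, ?_, fun W hW P => ?_⟩
  · intro W W' hW hW' P hP Q hQ
    by_cases h1 : ∃ W₀ : WeierstrassCurve ℚ, W₀ ∈ rkSet ∧ W₀⁄Qb = W
    · by_cases h2 : ∃ W₀ : WeierstrassCurve ℚ, W₀ ∈ rkSet ∧ W₀⁄Qb = W'
      · obtain ⟨W₀, hW₀, rfl⟩ := h1
        obtain ⟨W₁, hW₁, rfl⟩ := h2
        rw [hΓ W₀ hW₀] at hP
        rw [hΓ W₁ hW₁] at hQ
        obtain ⟨R, rfl⟩ := hP
        obtain ⟨S, rfl⟩ := hQ
        exact rkSet_zc hW₀ hW₁ R S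
      · rw [hbot W' h2] at hQ
        rw [AddSubgroup.mem_bot.1 hQ, LibER66.zc_zero_right]
        exact IsOfFinAddOrder.zero
    · rw [hbot W h1] at hP
      rw [AddSubgroup.mem_bot.1 hP, LibER66.zc_zero_left]
      exact IsOfFinAddOrder.zero
  · rw [hΓ W hW]
    exact ⟨P, rfl⟩

theorem exists_set : ∃ (S : Set (WeierstrassCurve ℚ)) (Γ : Grid), S.Infinite ∧ PwC Γ ∧
    (∀ E E' : WeierstrassCurve Qb, Stb Γ E E') ∧
    (∀ E ∈ S, E.IsElliptic ∧ NoCM (E⁄Qb) ∧ Module.rank ℤ E.toAffine.Point = 1 ∧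
      (∀ P : E.toAffine.Point, Mb Γ (constPt Qb P : (E⁄Qb).toAffine.Point)) ∧
      ∀ E' ∈ S, E ≠ E' → ∀ (φ : Hom (E⁄Qb) (E'⁄Qb)) P Q, Sd φ P Q → Q = 0) ∧
    ∀ (n : ℕ) (E : Fin n → WeierstrassCurve ℚ), Function.Injective E → (∀ i, E i ∈ S) →
      RankIs Γ E fun _ κ D => ∑ i, (mlt E κ D i ∅ : Cardinal) := by
  obtain ⟨Γ, h1, h2⟩ := exists_pw
  have hpw : PwC (satH Γ) := pwC_of_pw (satH_pw h1)
  have hst : ∀ E E' : WeierstrassCurve Qb, Stb (satH Γ) E E' := stb_of_fun (satH_fun Γ)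
  have hS : ∀ E ∈ rkSet, E.IsElliptic ∧ NoCM (E⁄Qb) ∧ Module.rank ℤ E.toAffine.Point = 1 ∧
      (∀ P : E.toAffine.Point, Mb (satH Γ) (constPt Qb P : (E⁄Qb).toAffine.Point)) ∧
      ∀ E' ∈ rkSet, E ≠ E' → ∀ (φ : Hom (E⁄Qb) (E'⁄Qb)) P Q, Sd φ P Q → Q = 0 := by
    intro E hE
    have hell : E.IsElliptic := ⟨isUnit_iff_ne_zero.2 (rkSet_rank hE).1⟩
    have hell' : (E⁄Qb).IsElliptic := inferInstanceAs (E.map (algebraMap ℚ Qb)).IsElliptic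
    refine ⟨hell, LibNC34.noCM_rkSet hE, ?_, fun P => le_satH Γ _ hell' (h2 E hE P),
      fun E' hE' hne φ P Q hPQ => ?_⟩
    · have h3 : Module.rank ℤ E.toAffine.Point = 1 :=
        Module.rank_eq_one_iff_finrank_eq_one.2 (rkSet_rank hE).2.2
      exact rank_irrel E _ _ h3
    · by_contra hQ
      refine hne (LibNI34.rkSet_isog hE hE' ⟨φ.toHm, P, ?_⟩)
      rwa [k0_of_f φ.toHm P Q hPQ]
  refine ⟨rkSet, satH Γ, rkSet_infinite, hpw, hst, hS, fun n E hinj hE => ?_⟩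
  exact rank_set hpw hst E (fun i => (hS _ (hE i)).1) (fun i => (hS _ (hE i)).2.1)
    (fun i => (hS _ (hE i)).2.2.1) (fun i => (hS _ (hE i)).2.2.2.1)
    (fun i j hij => (hS _ (hE i)).2.2.2.2 _ (hE j) (fun h => hij (hinj h)))

end Pool.Agent.LibEQ34
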