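import Pool.Agent.LibEQ34.T6
import Pool.Agent.LibEQ34.S
import Pool.Agent.LibEQ34.Goal
import Pool.Agent.LibER34.One
import Pool.Agent.LibAC34.CGam

/-!
The final theorem.
-/

open WeierstrassCurve Pool.Agent.LibBH2 Pool.Agent.LibIG50 Pool.Agent.LibCHd Pool.Agent.LibGG
  Pool.Agent.LibAC34 Pool.Agent.LibAF11
open scoped Classical

namespace Pool.Agent.LibEQ34

theorem exists_small (K : Type) [Field K] [NumberField K] [Algebra K Qb] (E : WeierstrassCurve K)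
    [E.IsElliptic] (h : Module.rank ℤ E.toAffine.Point ≤ 1 ∨
      (¬ NoCM (E⁄Qb) ∧ (∀ σ : Qb ≃ₐ[K] Qb, chi E σ = 1) ∧ Module.rank ℤ E.toAffine.Point ≤ 2)) :
    ∃ Γ : Grid, PwC Γ ∧ (∀ E E' : WeierstrassCurve Qb, Stb Γ E E') ∧
      (∀ P : E.toAffine.Point, Mb Γ (constPt Qb P : (E⁄Qb).toAffine.Point)) ∧
      RankIs Γ (fun _ : Fin 1 => E) fun r _ D =>
        (bb E r D : Cardinal) * Module.rank ℤ E.toAffine.Point := by
  obtain ⟨Γ, h1, h2, -, h3⟩ := LibER34.exists_one K E (h.imp_right fun ⟨h4, h5, h6⟩ =>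
    ⟨h4, fun φ σ => by
      by_contra h7
      have h8 := h5 σ
      unfold chi at h8
      rw [if_neg (fun h9 => h7 (h9 φ))] at h8
      exact absurd h8 (by norm_num), h6⟩)
  exact ⟨Γ, h1, h2, h3, rank_one K h1 E h2 h3⟩

theorem exists_inf (K : Type) [Field K] [NumberField K] [Algebra K Qb] (E₀ : WeierstrassCurve K)
    [E₀.IsElliptic] (T P : E₀.toAffine.Point) (hT : T ≠ 0) (hT' : 2 • T = 0) :
    ∃ Γ : Grid, PwC Γ ∧ (∀ E E' : WeierstrassCurve Qb, Stb Γ E E') ∧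
      Mb Γ (constPt Qb P : (E₀⁄Qb).toAffine.Point) ∧ Inf Γ ∧ GalS K Γ := by
  obtain ⟨Γ, h1, h2, h3, h4, h5⟩ := gg4 K E₀ T P hT hT'
  refine ⟨Γ, pwC_of_pw h1, LibER34.stb_of_fun h2, h3, fun W hW => ⟨?_, (h4 W hW).2⟩,
    fun E hE σ R hR => (h5 E hE).1 σ R hR⟩
  obtain ⟨Q, hQ⟩ := (h4 W hW).1
  have h6 := hQ.cardinal_le_rank
  rw [Cardinal.mk_nat] at h6
  have h7 : {P : W.toAffine.Point | Mb Γ P} = (Γ W : Set W.toAffine.Point) := rfl
  rw [rk, h7, AddSubgroup.closure_eq]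
  exact h6

theorem exact : Goal :=
  ⟨fun _ h K _ _ => ranks K h, exists_set, fun K _ _ _ E _ h => exists_small K E h,
    fun K _ _ _ E₀ _ T P hT hT' => exists_inf K E₀ T P hT hT'⟩

end Pool.Agent.LibEQ34
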