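import Pool.Agent.LibEQ34.CDefs
import Pool.Agent.LibER34.Tst
import Pool.Agent.LibER34.Tr0
import Pool.Agent.LibAF11.Red5

/-!
The transfer: homomorphisms and matrices of pairs, for products of different curves.
-/

open WeierstrassCurve Pool.Agent.LibBH2 Pool.Agent.LibIG50 Pool.Agent.LibCHd Pool.Agent.LibGG
  Pool.Agent.LibAC34 Pool.Agent.LibAF11 Pool.Agent.LibER34
open scoped Classical ComplexConjugate

namespace Pool.Agent.LibEQ34

variable {D r s : ℕ}

/-- the homomorphisms given by a matrix of pairs -/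
noncomputable def hW (c : CM) {V : Fin D → WeierstrassCurve Qb} (W : Fin r → WeierstrassCurve Qb)
    (hW : ∀ i, (W i).IsElliptic) (N : Matrix (Fin r) (Fin D) (ℤ × ℤ)) : Homs V W :=
  fun i a => ofHm (@pr Qb _ (V a) (W i) (hW i) (c.w (W i)) (N i a))

theorem hW_f (c : CM) {V : Fin D → WeierstrassCurve Qb} (W : Fin r → WeierstrassCurve Qb)
    (h : ∀ i, (W i).IsElliptic) (N : Matrix (Fin r) (Fin D) (ℤ × ℤ)) (i : Fin r) (a : Fin D)
    (F : Type) [Field F] [Algebra Qb F] (P : ((V a)⁄F).toAffine.Point) :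
    (hW (V := V) c W h N i a).f F P = sm (c.w (W i)) F (N i a) (tr (V a) (W i) P) := rfl

/-- the product of matrices of pairs; the rows belong to the curves `X` -/
noncomputable def mulW (c : CM) (X : Fin s → WeierstrassCurve Qb)
    (M : Matrix (Fin s) (Fin r) (ℤ × ℤ)) (N : Matrix (Fin r) (Fin D) (ℤ × ℤ)) :
    Matrix (Fin s) (Fin D) (ℤ × ℤ) :=
  fun x a => ∑ j, mp2 (c.t (X x)) (c.n (X x)) (M x j) (N j a)

theorem tc_mp2 {ω : ℂ} {t n : ℤ} (ht : ω + conj ω = t) (hn : ω * conj ω = n) (p q : ℤ × ℤ) :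
    tc ω (mp2 t n p q) = tc ω p * tc ω q := (tc_mul ht hn p q).symm

theorem tc_zero (ω : ℂ) : tc ω 0 = 0 := by simp [tc]

theorem cx_eq (c : CM) (W : Fin r → WeierstrassCurve Qb) (N : Matrix (Fin r) (Fin D) (ℤ × ℤ))
    (i : Fin r) (a : Fin D) : cx c W N i a = tc (c.ω (W i)) (N i a) := rfl

variable {c : CM} {V : Fin D → WeierstrassCurve Qb} {W : Fin r → WeierstrassCurve Qb}
  {X : Fin s → WeierstrassCurve Qb}

theorem mulW_cx {M : Matrix (Fin s) (Fin r) (ℤ × ℤ)} (hM : MatC c W X M)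
    (N : Matrix (Fin r) (Fin D) (ℤ × ℤ)) : cx c X (mulW c X M N) = cx c X M * cx c W N := by
  ext x a
  rw [cx_eq, Matrix.mul_apply]
  show tc (c.ω (X x)) (∑ j, _) = _
  rw [tc_sum]
  refine Finset.sum_congr rfl fun j _ => ?_
  rw [tc_mp2 (c.trace _) (c.norm _), cx_eq, cx_eq]
  by_cases h : W j = X x
  · rw [h]
  · rw [(hM x j).1 h, tc_zero, zero_mul, zero_mul]

theorem mp2_real {t n : ℤ} {p q : ℤ × ℤ} (hp : p.2 = 0) (hq : q.2 = 0) : (mp2 t n p q).2 = 0 := by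
  simp [mp2, hp, hq]

theorem mulW_mat {M : Matrix (Fin s) (Fin r) (ℤ × ℤ)} (hM : MatC c W X M)
    {N : Matrix (Fin r) (Fin D) (ℤ × ℤ)} (hN : MatC c V W N) : MatC c V X (mulW c X M N) := by
  intro x a
  refine ⟨fun h => Finset.sum_eq_zero fun j _ => ?_, fun h => ?_⟩
  · by_cases h1 : W j = X x
    · rw [(hN j a).1 (fun h2 => h (h2.trans h1)), mp2_zero_right]
    · rw [(hM x j).1 h1, mp2_zero_left]
  · show (∑ j, _ : ℤ × ℤ).2 = 0
    rw [Prod.snd_sum]
    refine Finset.sum_eq_zero fun j _ => ?_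
    by_cases h1 : W j = X x
    · exact mp2_real ((hM x j).2 h) ((hN j a).2 (by rw [h1]; exact h))
    · rw [(hM x j).1 h1, mp2_zero_left]
      rfl

theorem mulW_sm {M : Matrix (Fin s) (Fin r) (ℤ × ℤ)} (hM : MatC c W X M)
    (N : Matrix (Fin r) (Fin D) (ℤ × ℤ)) (x : Fin s) (a : Fin D) (F : Type) [Field F]
    [Algebra Qb F] (P : ((V a)⁄F).toAffine.Point) :
    sm (c.w (X x)) F (mulW c X M N x a) (tr (V a) (X x) P) =
      ∑ j, sm (c.w (X x)) F (M x j) (tr (W j) (X x)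
        (sm (c.w (W j)) F (N j a) (tr (V a) (W j) P))) := by
  show sm (c.w (X x)) F (∑ j, _) _ = _
  rw [LibAF11.sm_sum]
  refine Finset.sum_congr rfl fun j _ => ?_
  by_cases h : W j = X x
  · rw [sm_mp2 _ (c.quad _)]
    generalize X x = Z at h
    subst h
    rw [tr_self]
  · rw [(hM x j).1 h, mp2_zero_left, sm_zero', sm_zero']

theorem mat_transpose {M : Matrix (Fin r) (Fin D) (ℤ × ℤ)} (hM : MatC c V W M) :
    MatC c W V M.transpose := fun a i => by
  refine ⟨fun h => (hM i a).1 fun h' => h h'.symm, fun h => ?_⟩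
  show (M i a).2 = 0
  by_cases h1 : V a = W i
  · exact (hM i a).2 (by rw [← h1]; exact h)
  · rw [(hM i a).1 h1]
    rfl

theorem cx_transpose {M : Matrix (Fin r) (Fin D) (ℤ × ℤ)} (hM : MatC c V W M) :
    cx c V M.transpose = (cx c W M).transpose := by
  ext a i
  rw [cx_eq, Matrix.transpose_apply, Matrix.transpose_apply, cx_eq]
  by_cases h1 : V a = W i
  · rw [h1]
  · rw [(hM i a).1 h1, tc_zero, tc_zero]

theorem clC_cls' (c : CM) (hWe : ∀ i, (W i).IsElliptic) {F : Type} [Field F] [Algebra Qb F]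
    (ξ : ∀ a, ((V a)⁄F).toAffine.Point) (N' : Matrix (Fin r) (Fin D) (ℤ × ℤ)) (g : Pts W) :
    clC c.w (Algebra.ofId Qb F) D (fun i => Hm.id (W i)) ξ (org W) N' g =
      cls (Algebra.ofId Qb F) D ξ (org W)
        (fun i a => @pr Qb _ (V a) (W i) (hWe i) (c.w (W i)) (N' i a)) g := by
  have h1 := @pnt_linC D r Qb _ V W W hWe c.w (fun i => Hm.id (W i)) N' g g
    (fun i => k0_id (g i)) Qb F _ _ _ _ (Algebra.ofId Qb F) ξ (pt0 Qb) (org W)
  unfold clC LibAF11.cls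
  rw [← h1]
  rfl

/-- the cycle of `N ξ + g` up to a multiple, for a homomorphism `N` with `Q' N = N'` -/
theorem cls_step' (c : CM) (hV : ∀ a, (V a).IsElliptic) (hWe : ∀ i, (W i).IsElliptic) {F : Type}
    [Field F] [Algebra Qb F] (ξ : ∀ a, ((V a)⁄F).toAffine.Point)
    (hξ : IsGen 0 (Algebra.ofId Qb F) V ξ) (N : Homs V W) (N' : Matrix (Fin r) (Fin D) (ℤ × ℤ))
    (Q' : ℤ) (hN : ∀ i a (F : Type) [Field F] [Algebra Qb F] (P : ((V a)⁄F).toAffine.Point),
      Q' • (N i a).f F P = sm (c.w (W i)) F (N' i a) (tr (V a) (W i) P)) (g : Pts W) :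
    IsOfFinAddOrder (Q' ^ (2 * D) • (QuotientAddGroup.mk
        (cyc (pntH (Algebra.ofId Qb F) ξ (org W) N g)) : CH W (pt0 Qb) D) -
      clC c.w (Algebra.ofId Qb F) D (fun i => Hm.id (W i)) ξ (org W) N' g) := by
  rw [clC_cls' c hWe]
  exact step hV ξ hξ hWe Q' (fun i a => (N i a).toHm) _ (fun i a F _ _ P => (hN i a F P).symm) g

/-- The cycle of `f (N ξ + g)` up to a multiple, for a homomorphism `f` with `Q f = M` and a
homomorphism `N` with `Q' N = N'`. -/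
theorem dir_step' (c : CM) (hV : ∀ a, (V a).IsElliptic) (hX : ∀ x, (X x).IsElliptic) {F : Type}
    [Field F] [Algebra Qb F] (ξ : ∀ a, ((V a)⁄F).toAffine.Point)
    (hξ : IsGen 0 (Algebra.ofId Qb F) V ξ) (f : Homs W X) {M : Matrix (Fin s) (Fin r) (ℤ × ℤ)}
    (hM : MatC c W X M)
    (Q : ℤ) (hf : ∀ x i (F : Type) [Field F] [Algebra Qb F] (P : ((W i)⁄F).toAffine.Point),
      Q • (f x i).f F P = sm (c.w (X x)) F (M x i) (tr (W i) (X x) P))
    (N : Homs V W) (N' : Matrix (Fin r) (Fin D) (ℤ × ℤ))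
    (Q' : ℤ) (hN : ∀ i a (F : Type) [Field F] [Algebra Qb F] (P : ((V a)⁄F).toAffine.Point),
      Q' • (N i a).f F P = sm (c.w (W i)) F (N' i a) (tr (V a) (W i) P)) (g : Pts W) :
    IsOfFinAddOrder ((Q * Q') ^ (2 * D) • (QuotientAddGroup.mk
        (cyc (imgH f (pntH (Algebra.ofId Qb F) ξ (org W) N g))) : CH X (pt0 Qb) D) -
      clC c.w (Algebra.ofId Qb F) D (fun x => Hm.id (X x)) ξ (org X) (mulW c X M N')
        (fun x => ∑ i, (f x i).toHm.k0 (g i))) := by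
  rw [clC_cls' c hX]
  have h1 := img_pnt' hX (fun x i => (f x i).toHm) (fun i a => (N i a).toHm) g ξ
  have h2 := step hV ξ hξ hX (Q * Q')
    (mc hX (fun x i => (f x i).toHm) (fun i a => (N i a).toHm))
    (fun x a => @pr Qb _ (V a) (X x) (hX x) (c.w (X x)) (mulW c X M N' x a))
    (fun x a F _ _ P => ?_) (fun x => ∑ i, (f x i).toHm.k0 (g i))
  · unfold LibAF11.cls at h2
    rw [← h1] at h2
    exact h2
  · show sm (c.w (X x)) F (mulW c X M N' x a) (tr (V a) (X x) P) = _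
    rw [mulW_sm hM, mc_f, Finset.smul_sum]
    refine Finset.sum_congr rfl fun i _ => ?_
    have h3 := hf x i F (sm (c.w (W i)) F (N' i a) (tr (V a) (W i) P))
    have h4 := hN i a F P
    rw [← h3, ← h4]
    show Q • (f x i).toHm.f F (Q' • (N i a).f F P) = (Q * Q') • (f x i).toHm.f F ((N i a).f F P)
    rw [map_zsmul, mul_smul]

end Pool.Agent.LibEQ34
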