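import Pool.Agent.LibEQ34.T0
import Pool.Agent.LibER34.Tr1

/-!
The transfer: torsion of push-forwards, determinants of typed matrices, matrices of homomorphisms.
-/

open WeierstrassCurve Pool.Agent.LibBH2 Pool.Agent.LibIG50 Pool.Agent.LibCHd Pool.Agent.LibGG
  Pool.Agent.LibAC34 Pool.Agent.LibAF11 Pool.Agent.LibER34
open scoped Classical ComplexConjugate

namespace Pool.Agent.LibEQ34

theorem det_zero' {D : ℕ} (A B : Matrix (Fin D) (Fin D ⊕ Unit) ℂ) :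
    (A.transpose * B).det = 0 := by
  by_contra h
  have hu : IsUnit (A.transpose * B) :=
    (Matrix.isUnit_iff_isUnit_det _).2 (isUnit_iff_ne_zero.2 h)
  have h1 := Matrix.rank_of_isUnit _ hu
  have h2 := (Matrix.rank_mul_le_right A.transpose B).trans (Matrix.rank_le_card_height B)
  rw [h1, Fintype.card_sum, Fintype.card_fin, Fintype.card_unit] at h2
  omega

theorem alg_step' {G : Type*} [AddCommGroup G] (q m : ℤ) (x y : G) :
    q • m • x = m • (q • x - y) + m • y := by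
  rw [smul_sub, sub_add_cancel, smul_comm]

/-- a torsion criterion for `f_* c` in `CH_D` of a product of `D` curves -/
theorem dir_tors {Γ : Grid} (hΓ : Orth Γ) (hF : Fun Γ) (c : CM) {D r : ℕ}
    {V : Fin D → WeierstrassCurve Qb} {W : Fin r → WeierstrassCurve Qb}
    {X : Fin D → WeierstrassCurve Qb} (hV : ∀ a, (V a).IsElliptic)
    (hX : ∀ x, (X x).IsElliptic) {F : Type} [Field F] [Algebra Qb F]
    (ξ : ∀ a, ((V a)⁄F).toAffine.Point) (hξ : IsGen 0 (Algebra.ofId Qb F) V ξ)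
    {J : Type} [Fintype J] (m : J → ℤ) (N : J → Homs V W) (g : J → Pts W)
    (hg : ∀ j i, g j i ∈ Γ (W i))
    (NP : J → Matrix (Fin r) (Fin D) (ℤ × ℤ)) (hmat : ∀ j, MatC c V W (NP j)) {Q : ℤ}
    (hQ : Q ≠ 0)
    (hN : ∀ j i a (F : Type) [Field F] [Algebra Qb F] (P : ((V a)⁄F).toAffine.Point),
      Q • (N j i a).f F P = sm (c.w (W i)) F (NP j i a) (tr (V a) (W i) P))
    (f : Homs W X) {M : Matrix (Fin D) (Fin r) (ℤ × ℤ)} (hM : MatC c W X M) {Q' : ℤ}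
    (hQ' : Q' ≠ 0)
    (hf : ∀ x i (F : Type) [Field F] [Algebra Qb F] (P : ((W i)⁄F).toAffine.Point),
      Q' • (f x i).f F P = sm (c.w (X x)) F (M x i) (tr (W i) (X x) P))
    (hnum : ∀ M' : Matrix (Fin D) (Fin D) (ℤ × ℤ), MatC c V X M' →
      ∑ j, (m j : ℝ) * Complex.normSq ((cx c X M').transpose *
        (cx c X M * cx c W (NP j))).det = 0) :
    IsOfFinAddOrder (∑ j, m j • (QuotientAddGroup.mk
      (cyc (imgH f (pntH (Algebra.ofId Qb F) ξ (org W) (N j) (g j)))) : CH X (pt0 Qb) D)) := by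
  have h1 : ∀ j, IsOfFinAddOrder ((Q' * Q) ^ (2 * D) • (QuotientAddGroup.mk
        (cyc (imgH f (pntH (Algebra.ofId Qb F) ξ (org W) (N j) (g j)))) : CH X (pt0 Qb) D) -
      clC c.w (Algebra.ofId Qb F) D (fun x => Hm.id (X x)) ξ (org X) (mulW c X M (NP j))
        (fun x => ∑ i, (f x i).toHm.k0 (g j i))) := fun j =>
    dir_step' c hV hX ξ hξ f hM Q' hf (N j) (NP j) Q (hN j) (g j)
  have h2 : ∀ n, n = 0 + D → IsOfFinAddOrder (∑ j, m j •
      clC c.w (Algebra.ofId Qb F) n (fun x => Hm.id (X x)) ξ (org X) (mulW c X M (NP j))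
        (fun x => ∑ i, (f x i).toHm.k0 (g j i))) := by
    rintro n rfl
    refine all_dimC hΓ hF c D X X (fun x => Hm.id (X x)) hX hX D V hV (pt0 Qb) 0 Qb (org X) F
      (Algebra.ofId Qb F) ξ hξ J m (fun j => mulW c X M (NP j))
      (fun j x => ∑ i, (f x i).toHm.k0 (g j i)) (fun j => mulW_mat hM (hmat j))
      (fun j x => sum_mem fun i _ => hF _ _ _ _ (hg j i)) (fun M' hM' => ?_) ?_
    · simp only [mulW_cx hM]
      exact hnum M' hM'
    · intro M'' _ E' s _ lam _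
      refine Finset.sum_eq_zero fun j _ => ?_
      rw [det_zero', mul_zero, mul_zero]
  have h3 := h2 D (Nat.zero_add D).symm
  have h4 : (Q' * Q) ^ (2 * D) ≠ 0 := pow_ne_zero _ (mul_ne_zero hQ' hQ)
  have h5 : IsOfFinAddOrder ((Q' * Q) ^ (2 * D) • ∑ j, m j • (QuotientAddGroup.mk
      (cyc (imgH f (pntH (Algebra.ofId Qb F) ξ (org W) (N j) (g j)))) :
        CH X (pt0 Qb) D)) := by
    rw [Finset.smul_sum, Finset.sum_congr rfl fun j _ => alg_step' _ _ _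
      (clC c.w (Algebra.ofId Qb F) D (fun x => Hm.id (X x)) ξ (org X) (mulW c X M (NP j))
        (fun x => ∑ i, (f x i).toHm.k0 (g j i))), Finset.sum_add_distrib]
    refine IsOfFinAddOrder.add ?_ h3
    exact (AddCommGroup.torsion _).sum_mem fun j _ =>
      (AddCommGroup.torsion _).zsmul_mem (h1 j) _
  rw [isOfFinAddOrder_iff_zsmul_eq_zero] at h5 ⊢
  obtain ⟨n, hn, h6⟩ := h5
  exact ⟨n * (Q' * Q) ^ (2 * D), mul_ne_zero hn h4, by rw [mul_smul]; exact h6⟩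

variable {K : Type} [Field K] [Algebra K Qb] {n r D : ℕ}

/-- pairwise non-isogenous curves -/
def NI (E : Fin n → WeierstrassCurve K) : Prop :=
  ∀ i j, Isog ((E i)⁄Qb) ((E j)⁄Qb) → i = j

theorem NI.inj {E : Fin n → WeierstrassCurve K} (hI : NI E)
    (hE : ∀ i, ((E i)⁄Qb).IsElliptic) {i j : Fin n} (h : (E i)⁄Qb = (E j)⁄Qb) : i = j := by
  have := hE i
  refine hI i j ?_
  rw [← h]
  exact Isog.refl _

/-- entries between different curves -/
theorem mat_ne {c : CM} {E : Fin n → WeierstrassCurve K} (hI : NI E)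
    (hE : ∀ i, ((E i)⁄Qb).IsElliptic) {μ : Fin D → Fin n} {κ : Fin r → Fin n}
    {N : Matrix (Fin r) (Fin D) (ℤ × ℤ)} (hN : MatC c (prd E μ) (prd E κ) N) {i : Fin r}
    {a : Fin D} (h : μ a ≠ κ i) : N i a = 0 :=
  (hN i a).1 fun h' => h (hI.inj hE h')

/-- the determinant of a matrix between different types is zero -/
theorem det_typ {c : CM} {E : Fin n → WeierstrassCurve K} (hI : NI E)
    (hE : ∀ i, ((E i)⁄Qb).IsElliptic) {μ ν : Fin D → Fin n} (hμ : Monotone μ)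
    (hν : Monotone ν) (h : ν ≠ μ) {M : Matrix (Fin D) (Fin D) (ℤ × ℤ)}
    (hM : MatC c (prd E ν) (prd E μ) M) : (cx c (prd E μ) M).det = 0 := by
  rw [Matrix.det_apply]
  refine Finset.sum_eq_zero fun σ _ => ?_
  have h1 : ∃ i, ν i ≠ μ (σ i) := by
    by_contra h2
    push Not at h2
    apply h
    have h3 : ν = μ ∘ σ := funext h2
    have h4 : Monotone (μ ∘ σ) := by rw [← h3]; exact hν
    have h5 := Tuple.unique_monotone h4 (show Monotone (μ ∘ (1 : Equiv.Perm (Fin D))) from hμ)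
    rw [h3, h5]
    rfl
  obtain ⟨i, hi⟩ := h1
  have h2 : ∏ i, cx c (prd E μ) M (σ i) i = 0 := by
    refine Finset.prod_eq_zero (Finset.mem_univ i) ?_
    rw [cx_eq, mat_ne hI hE hM hi, tc_zero]
  rw [h2, smul_zero]

/-- matrices of pairs for finitely many homomorphisms of all types -/
theorem exists_NPs {c : CM} (hc : Full c) {E : Fin n → WeierstrassCurve K} (hI : NI E)
    (hE : ∀ i, ((E i)⁄Qb).IsElliptic) (κ : Fin r → Fin n)
    (T : ∀ μ : Fin D → Fin n, Finset (Homs (prd E μ) (prd E κ))) :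
    ∃ (Q : ℕ) (NP : ∀ μ : Fin D → Fin n, Homs (prd E μ) (prd E κ) →
        Matrix (Fin r) (Fin D) (ℤ × ℤ)), 0 < Q ∧
      (∀ μ N, MatC c (prd E μ) (prd E κ) (NP μ N)) ∧
      ∀ μ, ∀ N ∈ T μ, ∀ i a (F : Type) [Field F] [Algebra Qb F]
        (P : ((prd E μ a)⁄F).toAffine.Point), (Q : ℤ) • (N i a).f F P =
          sm (c.w (prd E κ i)) F (NP μ N i a) (tr (prd E μ a) (prd E κ i) P) := by
  obtain ⟨Q, hQ, p, h1, h2, h3⟩ := family_pair hc
    (X := (Σ μ : Fin D → Fin n, Fin (T μ).card) × Fin r × Fin D)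
    (fun x => prd E x.1.1 x.2.2) (fun x => prd E κ x.2.1) (fun x => hE _) (fun x => hE _)
    (fun x hx => congrArg (fun i => (E i)⁄Qb) (hI _ _ hx))
    (fun x => (((T x.1.1).equivFin.symm x.1.2).1 x.2.1 x.2.2).toHm)
  refine ⟨Q, fun μ N i a => if h : N ∈ T μ then p (⟨μ, (T μ).equivFin ⟨N, h⟩⟩, i, a) else 0, hQ,
    fun μ N i a => ⟨fun h => ?_, fun h => ?_⟩, fun μ N hN i a F _ _ P => ?_⟩
  · dsimp only
    split_ifs with h4
    · exact h1 (⟨μ, (T μ).equivFin ⟨N, h4⟩⟩, i, a) h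
    · rfl
  · dsimp only
    split_ifs with h4
    · exact h2 (⟨μ, (T μ).equivFin ⟨N, h4⟩⟩, i, a) h
    · rfl
  · have h5 := h3 (⟨μ, (T μ).equivFin ⟨N, hN⟩⟩, i, a) F P
    have h6 : ((T μ).equivFin.symm ((T μ).equivFin ⟨N, hN⟩)).1 = N := by
      rw [Equiv.symm_apply_apply]
    show (Q : ℤ) • (N i a).f F P = sm (c.w (prd E κ i)) F
      (if h : N ∈ T μ then p (⟨μ, (T μ).equivFin ⟨N, h⟩⟩, i, a) else 0)
        (tr (prd E μ a) (prd E κ i) P)
    rw [dif_pos hN, natCast_zsmul, ← h5]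
    show Q • (N i a).f F P = Q • ((((T μ).equivFin.symm ((T μ).equivFin ⟨N, hN⟩)).1 i a).f F P)
    rw [h6]

/-- the pairs of conjugate homomorphisms -/
theorem pair_conj' {c : CM} {E : Fin n → WeierstrassCurve K} (hI : NI E)
    (hE : ∀ i, ((E i)⁄Qb).IsElliptic) {e : (Qb ≃ₐ[K] Qb) → Fin n → Bool}
    (he : ∀ l, GalW c (E l) (fun σ => e σ l)) (σ : Qb ≃ₐ[K] Qb) (i j : Fin n)
    (f f' : Hom ((E j)⁄Qb) ((E i)⁄Qb)) (h : Cj σ f f') {Q : ℤ} {p p' : ℤ × ℤ}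
    (hp : ((E j)⁄Qb ≠ (E i)⁄Qb → p = 0) ∧ ((c.ω ((E i)⁄Qb)).im = 0 → p.2 = 0))
    (hp' : ((E j)⁄Qb ≠ (E i)⁄Qb → p' = 0) ∧ ((c.ω ((E i)⁄Qb)).im = 0 → p'.2 = 0))
    (h1 : ∀ P : (((E j)⁄Qb)⁄Qb).toAffine.Point,
      Q • f.f Qb P = sm (c.w ((E i)⁄Qb)) Qb p (tr ((E j)⁄Qb) ((E i)⁄Qb) P))
    (h2 : ∀ P : (((E j)⁄Qb)⁄Qb).toAffine.Point,
      Q • f'.f Qb P = sm (c.w ((E i)⁄Qb)) Qb p' (tr ((E j)⁄Qb) ((E i)⁄Qb) P)) :
    pc (c.t ((E i)⁄Qb)) (e σ i) p = p' := by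
  by_cases hij : j = i
  · subst hij
    exact pair_conj (hE j) (he j) σ f f' h hp.2 hp'.2
      (fun P => by rw [h1, tr_self]) (fun P => by rw [h2, tr_self])
  · have h3 : (E j)⁄Qb ≠ (E i)⁄Qb := fun h4 => hij (hI.inj hE h4)
    rw [hp.1 h3, hp'.1 h3, pc_real _ _ _ rfl]

end Pool.Agent.LibEQ34
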