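import Pool.Agent.LibEQ34.T1

/-!
The transfer: first inequality.
-/

open WeierstrassCurve Pool.Agent.LibBH2 Pool.Agent.LibIG50 Pool.Agent.LibCHd Pool.Agent.LibGG
  Pool.Agent.LibAC34 Pool.Agent.LibAF11 Pool.Agent.LibER34
open scoped Classical ComplexConjugate

namespace Pool.Agent.LibEQ34

/-- the numbers are zero if the images under the homomorphisms to `B` are torsion -/
theorem nmb_zero' {c : CM} {D r : ℕ} {V : Fin D → WeierstrassCurve Qb}
    {W : Fin r → WeierstrassCurve Qb} (hV : ∀ a, (V a).IsElliptic) {F : Type} [Field F]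
    [Algebra Qb F] (ξ : ∀ a, ((V a)⁄F).toAffine.Point)
    (hξ : IsGen 0 (Algebra.ofId Qb F) V ξ) {J : Type} [Fintype J] (m : J → ℤ)
    (N : J → Homs V W) (g : J → Pts W) (NP : J → Matrix (Fin r) (Fin D) (ℤ × ℤ)) (Q : ℤ)
    (hmat : ∀ j, MatC c V W (NP j))
    (hN : ∀ j i a (F : Type) [Field F] [Algebra Qb F] (P : ((V a)⁄F).toAffine.Point),
      Q • (N j i a).f F P = sm (c.w (W i)) F (NP j i a) (tr (V a) (W i) P))
    (M : Matrix (Fin r) (Fin D) (ℤ × ℤ)) (hM : MatC c V W M)
    (h : IsOfFinAddOrder (∑ j, m j • (QuotientAddGroup.mk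
        (cyc (imgH (hW (V := W) c V hV M.transpose)
          (pntH (Algebra.ofId Qb F) ξ (org W) (N j) (g j)))) : CH V (pt0 Qb) D))) :
    ∑ j, (m j : ℝ) * Complex.normSq ((cx c W M).transpose * cx c W (NP j)).det = 0 := by
  have hMt := mat_transpose hM
  have h2 : ∀ j, IsOfFinAddOrder (((1 * Q) ^ (2 * D)) • (QuotientAddGroup.mk
        (cyc (imgH (hW (V := W) c V hV M.transpose)
          (pntH (Algebra.ofId Qb F) ξ (org W) (N j) (g j)))) : CH V (pt0 Qb) D) -
      clC c.w (Algebra.ofId Qb F) D (fun a => Hm.id (V a)) ξ (org V)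
        (mulW c V M.transpose (NP j))
        (fun a => ∑ i, (hW (V := W) c V hV M.transpose a i).toHm.k0 (g j i))) := by
    intro j
    refine dir_step' c hV hV ξ hξ (hW (V := W) c V hV M.transpose) hMt 1
      (fun a i F _ _ P => ?_) (N j) (NP j) Q (hN j) (g j)
    rw [one_smul]
    rfl
  have h3 := tors_of_smul (tors_fin_sum m _ _ _ h2) h
  have h4 := (convC c V hV V hV F ξ hξ J m (fun j => mulW c V M.transpose (NP j))
    (fun j a => ∑ i, (hW (V := W) c V hV M.transpose a i).toHm.k0 (g j i))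
    (fun j => mulW_mat hMt (hmat j)) h3).1 (oneP D) (fun i a => ⟨fun h => ?_, fun _ => ?_⟩)
  · rw [← h4]
    refine Finset.sum_congr rfl fun j _ => ?_
    have h5 : cx c V (oneP D) = 1 := by
      ext i a
      rw [cx_eq, oneP, Matrix.one_apply]
      split_ifs with h
      · simp [tc]
      · simp [tc]
    rw [h5, mulW_cx hMt, cx_transpose hM, Matrix.transpose_one, one_mul]
  · unfold oneP
    rw [if_neg]
    rintro rfl
    exact h rfl
  · unfold oneP
    split_ifs <;> rfl

variable {K : Type} [Field K] [Algebra K Qb] {n r D : ℕ}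

theorem ZP_le {Γ Γ' : Grid} (hΓ : Orth Γ') (hF : Fun Γ') {c : CM} (hc : Full c)
    {E : Fin n → WeierstrassCurve K} (hI : NI E) (hE : ∀ i, ((E i)⁄Qb).IsElliptic)
    (hle : ∀ i, Γ ((E i)⁄Qb) ≤ Γ' ((E i)⁄Qb))
    {e : (Qb ≃ₐ[K] Qb) → Fin n → Bool} (he : ∀ l, GalW c (E l) (fun σ => e σ l))
    (κ : Fin r → Fin n) {F : (Fin D → Fin n) → Type} [∀ μ, Field (F μ)]
    [∀ μ, Algebra Qb (F μ)] (ξ : ∀ μ a, ((prd E μ a)⁄(F μ)).toAffine.Point)
    (hξ : ∀ μ, IsGen 0 (Algebra.ofId Qb (F μ)) (prd E μ) (ξ μ)) :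
    rk ((fun c => ∑ μ, clF (ξ μ) (c μ)) '' ZP Γ E κ ξ) ≤ rkT Γ c E e κ ξ := by
  refine LibER34.rk_le _ _ ?_
  rintro _ ⟨z, ⟨hz1, hz2, hz3⟩, rfl⟩
  obtain ⟨Q, NP, hQ, hmat, hN⟩ := exists_NPs hc hI hE κ
    (fun μ => (z μ).support.image Prod.fst)
  let φ : ∀ μ : Fin D → Fin n, Prs (prd E μ) (prd E κ) → PM E κ D :=
    fun μ p => (NP μ p.1, p.2)
  have hmem : ∀ μ, ∀ p ∈ (z μ).support, p.1 ∈ (z μ).support.image Prod.fst :=
    fun μ p hp => Finset.mem_image_of_mem _ hp
  have hQ' : (Q : ℤ) ≠ 0 := by exact_mod_cast hQ.ne'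
  have hzero : ∀ μ, ¬ Monotone μ → z μ = 0 := by
    intro μ hμ
    by_contra h
    obtain ⟨p, hp⟩ := Finsupp.support_nonempty_iff.2 h
    exact hμ (hz1 μ p hp).1
  -- the sum over an enumeration of the support
  have hdir : ∀ (μ ν : Fin D → Fin n) (f : Homs (prd E κ) (prd E ν)), dirF f (ξ μ) (z μ) =
      ∑ j : Fin (z μ).support.card, z μ ((z μ).support.equivFin.symm j).1 •
        (QuotientAddGroup.mk (cyc (imgH f (pntH (Algebra.ofId Qb (F μ)) (ξ μ) (org _)
          ((z μ).support.equivFin.symm j).1.1 ((z μ).support.equivFin.symm j).1.2))) :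
            CH (prd E ν) (pt0 Qb) D) := by
    intro μ ν f
    unfold dirF
    rw [sum_fin]
  refine ⟨(Q : ℤ) ^ (2 * D), pow_ne_zero _ hQ', clT c κ ξ (fun μ => (z μ).mapDomain (φ μ)),
    ⟨⟨fun μ => (z μ).mapDomain (φ μ), fun μ => ⟨⟨fun p hp => ?_, fun σ => ?_, fun M hM => ?_⟩,
      fun hμ => ?_⟩⟩, rfl⟩, ?_⟩
  · obtain ⟨q, hq, rfl⟩ := Finset.mem_image.1 (Finsupp.mapDomain_support hp)
    exact ⟨hmat μ q.1, fun i => (hz1 μ q hq).2 i⟩
  · obtain ⟨ψ, hψ1, hψ2⟩ := hz2 μ σ
    rw [← Finsupp.mapDomain_comp]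
    show _ = (z μ).mapDomain (φ μ)
    conv_rhs => rw [← hψ2, ← Finsupp.mapDomain_comp]
    refine Finsupp.mapDomain_congr fun p hp => ?_
    refine Prod.ext ?_ (funext fun i => ((hψ1 p hp).2 i).symm)
    have h3 := hmem μ _ (mem_of_mapDomain hψ2 hp)
    have h4 := hmem μ _ hp
    have h5 : ∀ i a, pc (c.t ((E (κ i))⁄Qb)) (e σ (κ i)) (NP μ p.1 i a) = NP μ (ψ p).1 i a :=
      fun i a => pair_conj' hI hE he σ (κ i) (μ a) (p.1 i a) ((ψ p).1 i a)
        ((hψ1 p hp).1 i a) (hmat μ _ i a) (hmat μ _ i a)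
        (fun P => hN μ _ h4 i a Qb P) (fun P => hN μ _ h3 i a Qb P)
    exact funext fun i => funext fun a => h5 i a
  · have h1 : nmM c M ((z μ).mapDomain (φ μ)) = (z μ).sum fun p m => (m : ℝ) *
        Complex.normSq ((cx c (prd E κ) M).transpose * cx c (prd E κ) (NP μ p.1)).det := by
      unfold nmM
      rw [Finsupp.liftAddHom_apply, Finsupp.sum_mapDomain_index (fun p => map_zero _)
        (fun p a b => map_add _ _ _)]
      refine Finset.sum_congr rfl fun p _ => ?_
      show z μ p • Complex.normSq _ = (z μ p : ℝ) * _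
      rw [zsmul_eq_mul]
    rw [h1]
    by_cases hμ : Monotone μ
    · rw [sum_fin]
      refine nmb_zero' (fun a => hE _) (ξ μ) (hξ μ) (fun j => z μ ((z μ).support.equivFin.symm j).1)
        (fun j => ((z μ).support.equivFin.symm j).1.1)
        (fun j => ((z μ).support.equivFin.symm j).1.2)
        (fun j => NP μ ((z μ).support.equivFin.symm j).1.1) Q (fun j => hmat μ _)
        (fun j i a F _ _ P => hN μ _ (hmem μ _ ((z μ).support.equivFin.symm j).2) i a F P)
        M hM ?_
      rw [← hdir]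
      have h2 := hz3 μ (hW (V := prd E κ) c (prd E μ) (fun a => hE _) M.transpose)
      rw [← Finset.add_sum_erase _ _ (Finset.mem_univ μ)] at h2
      have h3 : IsOfFinAddOrder (∑ ν ∈ Finset.univ.erase μ,
          dirF (hW (V := prd E κ) c (prd E μ) (fun a => hE _) M.transpose) (ξ ν) (z ν)) := by
        refine (AddCommGroup.torsion _).sum_mem fun ν hν => ?_
        have hν' : ν ≠ μ := Finset.ne_of_mem_erase hν
        show IsOfFinAddOrder _
        by_cases hm : Monotone ν
        · rw [hdir]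
          refine dir_tors hΓ hF c (fun a => hE _) (fun a => hE _) (ξ ν) (hξ ν)
            (fun j => z ν ((z ν).support.equivFin.symm j).1)
            (fun j => ((z ν).support.equivFin.symm j).1.1)
            (fun j => ((z ν).support.equivFin.symm j).1.2)
            (fun j i => hle _ ((hz1 ν _ ((z ν).support.equivFin.symm j).2).2 i))
            (fun j => NP ν ((z ν).support.equivFin.symm j).1.1) (fun j => hmat ν _) hQ'
            (fun j i a F _ _ P => hN ν _ (hmem ν _ ((z ν).support.equivFin.symm j).2) i a F P)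
            _ (mat_transpose hM) one_ne_zero (fun a i F _ _ P => by rw [one_smul]; rfl)
            fun M' hM' => ?_
          refine Finset.sum_eq_zero fun j _ => ?_
          rw [Matrix.det_mul, Matrix.det_transpose, det_typ hI hE hμ hm hν' hM', zero_mul,
            Complex.normSq_zero, mul_zero]
        · rw [hzero ν hm]
          show IsOfFinAddOrder (Finsupp.sum 0 _)
          rw [Finsupp.sum_zero_index]
          exact IsOfFinAddOrder.zero
      have h4 := (AddCommGroup.torsion _).sub_mem h2 h3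
      rwa [add_sub_cancel_right] at h4
    · rw [hzero μ hμ, Finsupp.sum_zero_index]
  · show (z μ).mapDomain (φ μ) = 0
    rw [hzero μ hμ, Finsupp.mapDomain_zero]
  · have h0 : clT c κ ξ (fun μ => (z μ).mapDomain (φ μ)) =
        ∑ μ, clM c κ (ξ μ) ((z μ).mapDomain (φ μ)) := by
      unfold clT
      rw [AddMonoidHom.finset_sum_apply]
      rfl
    have h1 : ∀ μ, clM c κ (ξ μ) ((z μ).mapDomain (φ μ)) = (z μ).sum fun p m => m •
        clC c.w (Algebra.ofId Qb (F μ)) D (fun i => Hm.id (prd E κ i)) (ξ μ) (org _)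
          (NP μ p.1) p.2 := by
      intro μ
      unfold clM
      rw [Finsupp.liftAddHom_apply, Finsupp.sum_mapDomain_index (fun p => map_zero _)
        (fun p a b => map_add _ _ _)]
      rfl
    beta_reduce
    rw [h0, Finset.smul_sum, ← Finset.sum_sub_distrib]
    refine (AddCommGroup.torsion _).sum_mem fun μ _ => ?_
    rw [h1, sum_fin]
    unfold clF
    rw [sum_fin]
    exact tors_fin_sum (fun j => z μ ((z μ).support.equivFin.symm j).1) _ _ _ fun j =>
      cls_step' c (fun a => hE _) (fun i => hE _) (ξ μ) (hξ μ)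
        ((z μ).support.equivFin.symm j).1.1 (NP μ ((z μ).support.equivFin.symm j).1.1) Q
        (fun i a F _ _ P => hN μ _ (hmem μ _ ((z μ).support.equivFin.symm j).2) i a F P)
        ((z μ).support.equivFin.symm j).1.2

end Pool.Agent.LibEQ34
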