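import Pool.Agent.LibEQ34.T1

/-!
The transfer: second inequality.
-/

open WeierstrassCurve Pool.Agent.LibBH2 Pool.Agent.LibIG50 Pool.Agent.LibCHd Pool.Agent.LibGG
  Pool.Agent.LibAC34 Pool.Agent.LibAF11 Pool.Agent.LibER34
open scoped Classical ComplexConjugate

namespace Pool.Agent.LibEQ34

theorem sum_map' {α β G : Type*} [AddCommGroup G] (φ : α → β) (b : α →₀ ℤ) (g : β → G) :
    ((b.mapDomain φ).sum fun p m => m • g p) = b.sum fun p m => m • g (φ p) :=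
  Finsupp.sum_mapDomain_index (h := fun p m => m • g p) (fun _ => zero_smul ℤ _)
    (fun _ _ _ => add_smul _ _ _)

theorem pntH_linC' (c : CM) {D r : ℕ} {V : Fin D → WeierstrassCurve Qb}
    {W : Fin r → WeierstrassCurve Qb} (hWe : ∀ i, (W i).IsElliptic) {F : Type}
    [Field F] [Algebra Qb F] (ξ : ∀ a, ((V a)⁄F).toAffine.Point)
    (N : Matrix (Fin r) (Fin D) (ℤ × ℤ)) (g : Pts W) :
    pntH (Algebra.ofId Qb F) ξ (org W) (hW c W hWe N) g =
      linC c.w (Algebra.ofId Qb F) (fun i => Hm.id (W i)) ξ N g (org W) :=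
  @pnt_linC D r Qb _ V W W hWe c.w (fun i => Hm.id (W i)) N g g (fun i => k0_id (g i))
    Qb F _ _ _ _ (Algebra.ofId Qb F) ξ (pt0 Qb) (org W)

variable {K : Type} [Field K] [Algebra K Qb] {n r D : ℕ}

/-- conjugate pairs define conjugate homomorphisms -/
theorem cj_pair {c : CM} {E : Fin n → WeierstrassCurve K} (hI : NI E)
    (hE : ∀ i, ((E i)⁄Qb).IsElliptic) {e : (Qb ≃ₐ[K] Qb) → Fin n → Bool}
    (he : ∀ l, GalW c (E l) (fun σ => e σ l)) (σ : Qb ≃ₐ[K] Qb) (i j : Fin n)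
    (f f' : Hom ((E j)⁄Qb) ((E i)⁄Qb)) {p : ℤ × ℤ}
    (h1 : ∀ P : (((E j)⁄Qb)⁄Qb).toAffine.Point,
      f.f Qb P = sm (c.w ((E i)⁄Qb)) Qb p (tr ((E j)⁄Qb) ((E i)⁄Qb) P))
    (h2 : ∀ P : (((E j)⁄Qb)⁄Qb).toAffine.Point,
      f'.f Qb P = sm (c.w ((E i)⁄Qb)) Qb (pc (c.t ((E i)⁄Qb)) (e σ i) p)
        (tr ((E j)⁄Qb) ((E i)⁄Qb) P)) : Cj σ f f' := by
  intro P R h
  have h' : f.f Qb (constPt Qb P) = constPt Qb R := h
  show f'.f Qb (constPt Qb (gal σ P)) = constPt Qb (gal σ R)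
  by_cases hij : j = i
  · subst hij
    have h3 : smk (c.w ((E j)⁄Qb)) p P = R := by
      apply constPt_inj (F := Qb)
      rw [← h', h1, tr_self, sm_const]
    rw [h2, tr_self, sm_const, ← h3, gal_smk (he j)]
  · have h3 : (E j)⁄Qb ≠ (E i)⁄Qb := fun h4 => hij (hI.inj hE h4)
    have h4 : R = 0 := by
      apply constPt_inj (F := Qb)
      rw [← h', h1, tr_ne h3, map_zero]
      rfl
    rw [h2, tr_ne h3, map_zero, h4]
    have h5 : gal σ (0 : ((E i)⁄Qb).toAffine.Point) = 0 := map_zero _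
    rw [h5]
    rfl

/-- the pairs are determined by the homomorphism -/
theorem pair_inj {c : CM} {E : Fin n → WeierstrassCurve K} (hI : NI E)
    (hE : ∀ i, ((E i)⁄Qb).IsElliptic) (i j : Fin n) {p p' : ℤ × ℤ}
    (hp : ((E j)⁄Qb ≠ (E i)⁄Qb → p = 0) ∧ ((c.ω ((E i)⁄Qb)).im = 0 → p.2 = 0))
    (hp' : ((E j)⁄Qb ≠ (E i)⁄Qb → p' = 0) ∧ ((c.ω ((E i)⁄Qb)).im = 0 → p'.2 = 0))
    (h : ∀ P : (((E j)⁄Qb)⁄Qb).toAffine.Point,
      sm (c.w ((E i)⁄Qb)) Qb p (tr ((E j)⁄Qb) ((E i)⁄Qb) P) =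
        sm (c.w ((E i)⁄Qb)) Qb p' (tr ((E j)⁄Qb) ((E i)⁄Qb) P)) : p = p' := by
  by_cases hij : j = i
  · subst hij
    have := hE j
    refine pair_unique c ((E j)⁄Qb) hp.2 hp'.2 fun P => ?_
    apply constPt_inj (F := Qb)
    have h1 := h (constPt Qb P)
    rw [tr_self, sm_const, sm_const] at h1
    exact h1
  · have h3 : (E j)⁄Qb ≠ (E i)⁄Qb := fun h4 => hij (hI.inj hE h4)
    rw [hp.1 h3, hp'.1 h3]

theorem le_ZP {Γ Γ' : Grid} (hΓ : Orth Γ') (hF : Fun Γ') {c : CM} (hc : Full c)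
    {E : Fin n → WeierstrassCurve K} (hI : NI E) (hE : ∀ i, ((E i)⁄Qb).IsElliptic)
    (hle : ∀ i, Γ ((E i)⁄Qb) ≤ Γ' ((E i)⁄Qb))
    {e : (Qb ≃ₐ[K] Qb) → Fin n → Bool} (he : ∀ l, GalW c (E l) (fun σ => e σ l))
    (κ : Fin r → Fin n) {F : (Fin D → Fin n) → Type} [∀ μ, Field (F μ)]
    [∀ μ, Algebra Qb (F μ)] (ξ : ∀ μ a, ((prd E μ a)⁄(F μ)).toAffine.Point)
    (hξ : ∀ μ, IsGen 0 (Algebra.ofId Qb (F μ)) (prd E μ) (ξ μ)) :
    rkT Γ c E e κ ξ ≤ rk ((fun c => ∑ μ, clF (ξ μ) (c μ)) '' ZP Γ E κ ξ) := by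
  unfold rkT
  apply LibER34.le_rk
  rintro _ ⟨⟨b, hb⟩, rfl⟩
  let φ : ∀ μ : Fin D → Fin n, PM E κ D → Prs (prd E μ) (prd E κ) :=
    fun μ p => (hW (V := prd E μ) c (prd E κ) (fun i => hE _) p.1, p.2)
  have hzero : ∀ μ, ¬ Monotone μ → b μ = 0 := fun μ => (hb μ).2
  refine ⟨∑ μ, clF (ξ μ) ((b μ).mapDomain (φ μ)), ⟨fun μ => (b μ).mapDomain (φ μ),
    ⟨fun μ p hp => ?_, fun μ σ => ?_, fun ν f => ?_⟩, rfl⟩, ?_⟩
  · -- the components
    obtain ⟨q, hq, rfl⟩ := Finset.mem_image.1 (Finsupp.mapDomain_support hp)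
    refine ⟨?_, fun i => ((hb μ).1.1 q hq).2 i⟩
    by_contra hμ
    rw [hzero μ hμ, Finsupp.support_zero] at hq
    exact absurd hq (Finset.notMem_empty q)
  · -- Galois
    have inj : ∀ p ∈ (b μ).support, ∀ p' ∈ (b μ).support, φ μ p' = φ μ p → p' = p := by
      intro p hp p' hp' h
      refine Prod.ext ?_ (show (φ μ p').2 = (φ μ p).2 by rw [h])
      have h1 : ∀ i a, p'.1 i a = p.1 i a := fun i a =>
        pair_inj hI hE (κ i) (μ a) (((hb μ).1.1 p' hp').1 i a) (((hb μ).1.1 p hp).1 i a)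
          fun P => by
            have h2 : (φ μ p').1 = (φ μ p).1 := congrArg Prod.fst h
            have h3 : ((φ μ p').1 i a).f Qb P = ((φ μ p).1 i a).f Qb P := by rw [h2]
            exact h3
      exact funext fun i => funext fun a => h1 i a
    let ψ : Prs (prd E μ) (prd E κ) → Prs (prd E μ) (prd E κ) := fun q =>
      if h : ∃ p ∈ (b μ).support, φ μ p = q then φ μ (acM c E κ (e σ) σ h.choose) else q
    have hψ : ∀ p ∈ (b μ).support, ψ (φ μ p) = φ μ (acM c E κ (e σ) σ p) := by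
      intro p hp
      have h : ∃ p' ∈ (b μ).support, φ μ p' = φ μ p := ⟨p, hp, rfl⟩
      have h2 : h.choose = p := inj p hp _ h.choose_spec.1 h.choose_spec.2
      show (if h : ∃ p' ∈ (b μ).support, φ μ p' = φ μ p then
        φ μ (acM c E κ (e σ) σ h.choose) else φ μ p) = _
      rw [dif_pos h, h2]
    refine ⟨ψ, fun q hq => ?_, ?_⟩
    · obtain ⟨p, hp, rfl⟩ := Finset.mem_image.1 (Finsupp.mapDomain_support hq)
      rw [hψ p hp]
      exact ⟨fun i a => cj_pair hI hE he σ (κ i) (μ a) _ _ (fun P => rfl) (fun P => rfl),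
        fun i => rfl⟩
    · show ((b μ).mapDomain (φ μ)).mapDomain ψ = (b μ).mapDomain (φ μ)
      rw [← Finsupp.mapDomain_comp]
      conv_rhs => rw [← (hb μ).1.2.1 σ, ← Finsupp.mapDomain_comp]
      exact Finsupp.mapDomain_congr hψ
  · -- homologically trivial
    refine (AddCommGroup.torsion _).sum_mem fun μ _ => ?_
    obtain ⟨Q, hQ, M', hM1, hM2, hM3⟩ := family_pair hc (X := Fin D × Fin r)
      (fun x => prd E κ x.2) (fun x => prd E ν x.1) (fun x => hE _) (fun x => hE _)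
      (fun x hx => congrArg (fun i => (E i)⁄Qb) (hI _ _ hx)) (fun x => (f x.1 x.2).toHm)
    let M : Matrix (Fin D) (Fin r) (ℤ × ℤ) := fun a i => M' (a, i)
    have hM : MatC c (prd E κ) (prd E ν) M := fun a i => ⟨hM1 (a, i), hM2 (a, i)⟩
    have hf : ∀ a i (F : Type) [Field F] [Algebra Qb F]
        (P : ((prd E κ i)⁄F).toAffine.Point), (Q : ℤ) • (f a i).f F P =
          sm (c.w (prd E ν a)) F (M a i) (tr (prd E κ i) (prd E ν a) P) := by
      intro a i F _ _ P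
      rw [natCast_zsmul]
      exact hM3 (a, i) F P
    have h8 : dirF f (ξ μ) ((b μ).mapDomain (φ μ)) = ∑ j : (b μ).support, b μ j.1 •
        (QuotientAddGroup.mk (cyc (imgH f (pntH (Algebra.ofId Qb (F μ)) (ξ μ) (org _)
          (hW (V := prd E μ) c (prd E κ) (fun i => hE _) j.1.1) j.1.2))) :
            CH (prd E ν) (pt0 Qb) D) := by
      refine (sum_map' (φ μ) (b μ) _).trans ?_
      rw [Finsupp.sum, ← Finset.sum_coe_sort]
    show IsOfFinAddOrder (dirF f (ξ μ) ((b μ).mapDomain (φ μ)))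
    rw [h8]
    refine dir_tors hΓ hF c (fun a => hE _) (fun a => hE _) (ξ μ) (hξ μ)
      (fun j : (b μ).support => b μ j.1)
      (fun j => hW (V := prd E μ) c (prd E κ) (fun i => hE _) j.1.1) (fun j => j.1.2)
      (fun j i => hle _ (((hb μ).1.1 j.1 j.2).2 i)) (fun j => j.1.1)
      (fun j => ((hb μ).1.1 j.1 j.2).1) one_ne_zero
      (fun j i a F _ _ P => by rw [one_smul]; rfl) f hM (Q' := (Q : ℤ))
      (by exact_mod_cast hQ.ne') hf fun M'' hM'' => ?_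
    have h1 := (hb μ).1.2.2 (mulW c (prd E κ) M.transpose M'')
      (mulW_mat (mat_transpose hM) hM'')
    have h2 : nmM c (mulW c (prd E κ) M.transpose M'') (b μ) = ∑ j : (b μ).support,
        (b μ j.1 : ℝ) * Complex.normSq
          ((cx c (prd E κ) (mulW c (prd E κ) M.transpose M'')).transpose *
            cx c (prd E κ) j.1.1).det := by
      rw [nmM, Finsupp.liftAddHom_apply, Finsupp.sum, ← Finset.sum_coe_sort]
      refine Finset.sum_congr rfl fun j _ => ?_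
      rw [zmultiplesHom_apply, zsmul_eq_mul]
    rw [h2] at h1
    rw [← h1]
    refine Finset.sum_congr rfl fun j _ => ?_
    rw [mulW_cx (mat_transpose hM), cx_transpose hM, Matrix.transpose_mul,
      Matrix.transpose_transpose, Matrix.mul_assoc]
  · -- the class
    show clT c κ ξ b = ∑ μ, clF (ξ μ) ((b μ).mapDomain (φ μ))
    have h0 : clT c κ ξ b = ∑ μ, clM c κ (ξ μ) (b μ) := by
      unfold clT
      rw [AddMonoidHom.finset_sum_apply]
      rfl
    rw [h0]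
    refine Finset.sum_congr rfl fun μ _ => Eq.symm ((sum_map' (φ μ) (b μ) _).trans ?_)
    rw [clM, Finsupp.liftAddHom_apply]
    refine Finsupp.sum_congr fun p _ => ?_
    rw [zmultiplesHom_apply]
    unfold clC
    rw [← pntH_linC' c (fun i => hE _)]

end Pool.Agent.LibEQ34
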