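import Pool.Agent.LibEQ34.T1
import Pool.Agent.LibER34.WConj
import Pool.Agent.LibER34.Main

/-!
The signs and the groups of points.
-/

open WeierstrassCurve Pool.Agent.LibBH2 Pool.Agent.LibIG50 Pool.Agent.LibCHd Pool.Agent.LibGG
  Pool.Agent.LibAC34 Pool.Agent.LibAF11 Pool.Agent.LibER34
open scoped Classical ComplexConjugate

namespace Pool.Agent.LibEQ34

variable {K : Type} [Field K] [Algebra K Qb]

/-- the sign of `σ` is the one of its action on the endomorphism `w` -/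
theorem chi_eq {c : CM} (hc : Full c) (E : WeierstrassCurve K) [hE : (E⁄Qb).IsElliptic]
    (him : (c.ω (E⁄Qb)).im ≠ 0) {e : (Qb ≃ₐ[K] Qb) → Bool} (he : GalW c E e)
    (σ : Qb ≃ₐ[K] Qb) : chi E σ = sg (e σ) := by
  unfold chi
  cases hs : e σ
  · rw [if_pos]
    · rfl
    · intro φ P R h
      obtain ⟨Q, x, y, hQ, -, hf⟩ := hc (E⁄Qb) hE φ.toHm
      have hQ' : (Q : ℤ) ≠ 0 := by exact_mod_cast hQ.ne'
      have hk : ∀ S : (E⁄Qb).toAffine.Point,
          (Q : ℤ) • φ.toHm.k0 S = smk (c.w (E⁄Qb)) (x, y) S := by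
        intro S
        apply constPt_inj (F := Qb)
        have h1 := hf Qb (constPt Qb S)
        rw [← natCast_zsmul, φ.toHm.const, (c.w (E⁄Qb)).const] at h1
        rw [smk, HG_const_zsmul, HG_const_add, HG_const_zsmul, HG_const_zsmul]
        exact h1
      have hcomm : ∀ S : (E⁄Qb).toAffine.Point,
          (Q : ℤ) • φ.toHm.k0 (gal σ S) = (Q : ℤ) • gal σ (φ.toHm.k0 S) := by
        intro S
        rw [hk, ← map_zsmul, hk, gal_smk he, hs, pc_false]
      have h1 : φ.toHm.k0 P = R := k0_of_f φ.toHm P R h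
      have h2 : φ.toHm.k0 (gal σ P) = gal σ R := by
        obtain ⟨S, rfl⟩ := exists_divZ (E⁄Qb) (Q : ℤ) hQ' P
        rw [← h1, map_zsmul, k0_zsmul, hcomm, k0_zsmul, map_zsmul]
      show φ.f Qb (constPt Qb (gal σ P)) = constPt Qb (gal σ R)
      rw [← h2]
      exact φ.toHm.const Qb (gal σ P)
  · rw [if_neg]
    · rfl
    · intro hall
      have h0 := hall (ofHm (c.w (E⁄Qb)))
      have h1 : ∀ R : (E⁄Qb).toAffine.Point,
          (-c.t (E⁄Qb)) • R + (2 : ℤ) • (c.w (E⁄Qb)).k0 R = 0 := by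
        intro R
        obtain ⟨P, rfl⟩ : ∃ P, gal σ P = R := ⟨gal σ.symm R, gal_symm_apply σ R⟩
        have h2 := h0 P ((c.w (E⁄Qb)).k0 P) ((c.w (E⁄Qb)).const Qb P)
        have h3 : (c.w (E⁄Qb)).k0 (gal σ P) = gal σ ((c.w (E⁄Qb)).k0 P) :=
          k0_of_f (c.w (E⁄Qb)) _ _ h2
        have h4 := he σ P
        rw [hs, pc_true, smk] at h4
        simp only [mul_one, zero_add] at h4
        rw [← h3] at h4
        have h5 : (c.w (E⁄Qb)).k0 (gal σ P) =
            c.t (E⁄Qb) • gal σ P - (c.w (E⁄Qb)).k0 (gal σ P) := by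
          rw [sub_eq_add_neg, ← neg_one_zsmul]
          exact h4
        have h6 : (2 : ℤ) • (c.w (E⁄Qb)).k0 (gal σ P) = c.t (E⁄Qb) • gal σ P := by
          rw [two_zsmul]
          nth_rewrite 1 [h5]
          rw [sub_add_cancel]
        rw [h6, neg_zsmul, neg_add_cancel]
      have h2 := (rel_zero c (E⁄Qb) him h1).2
      exact absurd h2 (by norm_num)

/-- non-isogenous curves -/
theorem NI_of {n : ℕ} {E : Fin n → WeierstrassCurve K}
    (h : ∀ i j, i ≠ j → ∀ (φ : Hom ((E i)⁄Qb) ((E j)⁄Qb)) P Q, Sd φ P Q → Q = 0) : NI E := by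
  rintro i j ⟨φ, p, hp⟩
  by_contra hij
  exact hp (h i j hij (ofHm φ) p (φ.k0 p) (φ.const Qb p))

/-- the action of the Galois group on all the endomorphisms `w` -/
theorem exists_es {c : CM} (hc : Full c) {n : ℕ} (E : Fin n → WeierstrassCurve K)
    (hE : ∀ i, ((E i)⁄Qb).IsElliptic) :
    ∃ e : (Qb ≃ₐ[K] Qb) → Fin n → Bool, ∀ l, GalW c (E l) (fun σ => e σ l) := by
  have h : ∀ l, ∃ e, GalW c (E l) e := fun l => by
    have := hE l
    exact exists_e hc (E l)
  choose e he using h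
  exact ⟨fun σ l => e l σ, he⟩

theorem rk_GT {Γ : Grid} {n : ℕ} {E : Fin n → WeierstrassCurve K}
    {e : (Qb ≃ₐ[K] Qb) → Fin n → Bool} {i : Fin n} {T : Finset (Fin n)}
    (h : ∀ l ∈ T, ∀ σ, chi (E l) σ = sg (e σ l)) :
    rk (GT Γ E i T) = Module.rank ℤ (GTg Γ E e i T) := by
  have h1 : GT Γ E i T = (GTg Γ E e i T : Set ((E i)⁄Qb).toAffine.Point) := by
    ext P
    have h2 : ∀ σ, ∏ l ∈ T, chi (E l) σ = ∏ l ∈ T, sg (e σ l) :=
      fun σ => Finset.prod_congr rfl fun l hl => h l hl σ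
    constructor
    · rintro ⟨h3, h4⟩
      exact ⟨h3, fun σ => by rw [← h2]; exact h4 σ⟩
    · rintro ⟨h3, h4⟩
      exact ⟨h3, fun σ => by rw [h2]; exact h4 σ⟩
  rw [rk, h1, AddSubgroup.closure_eq]

end Pool.Agent.LibEQ34
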