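import Pool.Agent.LibEQ34.T2
import Pool.Agent.LibEQ34.T3
import Pool.Agent.LibEQ34.T4
import Pool.Agent.LibEX75.F

/-!
The theorem on the ranks.
-/

open WeierstrassCurve Pool.Agent.LibBH2 Pool.Agent.LibIG50 Pool.Agent.LibCHd Pool.Agent.LibGG
  Pool.Agent.LibAC34 Pool.Agent.LibAF11 Pool.Agent.LibER34
open scoped Classical ComplexConjugate

namespace Pool.Agent.LibEQ34

variable {K : Type} [Field K] [Algebra K Qb]

theorem noCM_iff' {c : CM} (hc : Full c) (E : WeierstrassCurve K) (hE : (E⁄Qb).IsElliptic) :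
    NoCM (E⁄Qb) ↔ (c.ω (E⁄Qb)).im = 0 :=
  LibER34.noCM_iff hc (E⁄Qb)

theorem bb_eq {c : CM} (hc : Full c) (E : WeierstrassCurve K) (hE : (E⁄Qb).IsElliptic)
    (r d : ℕ) : bb E r d = LibEX75.bw (c.ω (E⁄Qb)) r d := by
  unfold bb LibEX75.bw LibEX75.mu
  by_cases h : (c.ω (E⁄Qb)).im = 0
  · rw [if_pos h, if_pos ((noCM_iff' hc E hE).2 h)]
  · rw [if_neg h, if_neg (fun h' => h ((noCM_iff' hc E hE).1 h')), Nat.sub_zero]

theorem hh_eq {c : CM} (hc : Full c) (E : WeierstrassCurve K) (hE : (E⁄Qb).IsElliptic)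
    (t : Prop) [Decidable t] (r d : ℕ) :
    hh E t r d = LibEX75.hw (c.ω (E⁄Qb)) (decide t) r d := by
  unfold hh LibEX75.hw LibEX75.nu
  by_cases h : (c.ω (E⁄Qb)).im = 0
  · rw [if_pos h, if_pos ((noCM_iff' hc E hE).2 h), pow_two]
    by_cases ht : t
    · rw [if_pos ht, if_pos (decide_eq_true ht)]
    · rw [if_neg ht, if_neg (by simpa using ht)]
  · rw [if_neg h, if_neg (fun h' => h ((noCM_iff' hc E hE).1 h'))]
    by_cases ht : t
    · rw [if_pos ht, if_pos (decide_eq_true ht)]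
    · rw [if_neg ht, if_neg (by simpa using ht)]

theorem mlt_eq {c : CM} (hc : Full c) {n r : ℕ} (E : Fin n → WeierstrassCurve K)
    (hE : ∀ i, ((E i)⁄Qb).IsElliptic) (κ : Fin r → Fin n) (D : ℕ) (i : Fin n)
    (T : Finset (Fin n)) : mlt E κ D i T =
      ∑ μ : Fin D → Fin n with Monotone μ,
        LibEX75.bw (c.ω ((E i)⁄Qb)) (num κ i) (num μ i) *
        ∏ l ∈ Finset.univ.erase i,
          LibEX75.hw (c.ω ((E l)⁄Qb)) (decide (l ∈ T)) (num κ l) (num μ l) := by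
  unfold mlt
  refine Finset.sum_congr rfl fun μ _ => ?_
  rw [bb_eq hc (E i) (hE i)]
  congr 1
  exact Finset.prod_congr rfl fun l _ => hh_eq hc (E l) (hE l) _ _ _

theorem mlt_zero {n r : ℕ} (E : Fin n → WeierstrassCurve K) (κ : Fin r → Fin n) (D : ℕ)
    (i : Fin n) (T : Finset (Fin n)) {l : Fin n} (hl : l ∈ T) (hi : l ≠ i)
    (h : NoCM ((E l)⁄Qb)) : mlt E κ D i T = 0 := by
  unfold mlt
  refine Finset.sum_eq_zero fun μ _ => ?_
  rw [Finset.prod_eq_zero (Finset.mem_erase.2 ⟨hi, Finset.mem_univ l⟩), mul_zero]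
  unfold hh
  rw [if_pos h, if_pos hl]

theorem ranks (K : Type) [Field K] [Algebra K Qb] {Γ : Grid} (h : PwC Γ) : Ranks K Γ := by
  intro n E hE' hst hni r κ D F _ _ ξ hξ
  have hE : ∀ i, ((E i)⁄Qb).IsElliptic := fun i => by
    have := hE' i
    exact inferInstanceAs ((E i).map (algebraMap K Qb)).IsElliptic
  obtain ⟨c, hc⟩ := exists_CM
  obtain ⟨e, he⟩ := exists_es hc E hE
  have hO : Orth (satH Γ) := pw_orth (satH_pw (pw_of_pwC h))
  have hF : Fun (satH Γ) := satH_fun Γ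
  have hle : ∀ i, Γ ((E i)⁄Qb) ≤ satH Γ ((E i)⁄Qb) := fun i => le_satH Γ _ (hE i)
  have hI : NI E := NI_of hni
  have hSt : ∀ i, ∀ P ∈ Γ ((E i)⁄Qb), (c.w ((E i)⁄Qb)).k0 P ∈ Γ ((E i)⁄Qb) := fun i P hP => by
    rcases hst i with h1 | h1
    · rw [c.k0_real _ ((noCM_iff' hc (E i) (hE i)).1 h1)]
      exact zero_mem _
    · exact LibER34.k0_mem_of_stb h1 _ P hP
  rw [le_antisymm (ZP_le hO hF hc hI hE hle he κ ξ hξ) (le_ZP hO hF hc hI hE hle he κ ξ hξ),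
    LibEX75.rkT_eq hO hF c E hE (fun i j h => hI.inj hE h) hle hSt he κ ξ hξ]
  refine Finset.sum_congr rfl fun i _ => Finset.sum_congr rfl fun T hT => ?_
  rw [← mlt_eq hc E hE κ D i T]
  by_cases hc' : ∃ l ∈ T, NoCM ((E l)⁄Qb)
  · obtain ⟨l, hl, hn⟩ := hc'
    rw [mlt_zero E κ D i T hl (Finset.ne_of_mem_erase (Finset.mem_powerset.1 hT hl)) hn]
    simp
  · congr 1
    refine (rk_GT fun l hl σ => ?_).symm
    have hEl := hE l
    exact chi_eq hc (E l) (fun h4 => hc' ⟨l, hl, (noCM_iff' hc (E l) (hE l)).2 h4⟩) (he l) σ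

end Pool.Agent.LibEQ34
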