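import Pool.Agent.LibEQ34.T5
import Pool.Agent.LibER34.One

/-!
Special cases of the theorem on the ranks.
-/

open WeierstrassCurve Pool.Agent.LibBH2 Pool.Agent.LibIG50 Pool.Agent.LibCHd Pool.Agent.LibGG
  Pool.Agent.LibAC34 Pool.Agent.LibAF11
open scoped Classical

namespace Pool.Agent.LibEQ34

theorem rk_GT_empty (K : Type) [Field K] [NumberField K] [Algebra K Qb] {Γ : Grid} {n : ℕ}
    (E : Fin n → WeierstrassCurve K) (i : Fin n)
    (h : ∀ P : (E i).toAffine.Point, Mb Γ (constPt Qb P : ((E i)⁄Qb).toAffine.Point)) :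
    rk (GT Γ E i ∅) = Module.rank ℤ (E i).toAffine.Point := by
  have h1 : GT Γ E i ∅ = LibER34.GK Γ (E i) := by
    ext P
    constructor
    · rintro ⟨h1, h2⟩
      refine ⟨h1, fun σ => ?_⟩
      have h3 := h2 σ
      rw [Finset.prod_empty, one_zsmul] at h3
      exact h3
    · rintro ⟨h1, h2⟩
      refine ⟨h1, fun σ => ?_⟩
      rw [Finset.prod_empty, one_zsmul]
      exact h2 σ
  rw [h1]
  exact LibER34.rk_GK_eq K (E i) h

theorem rank_irrel {F : Type} [Field F] (W : WeierstrassCurve F) (d d' : DecidableEq F)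
    (h : (letI := d; Module.rank ℤ W.toAffine.Point) = 1) :
    (letI := d'; Module.rank ℤ W.toAffine.Point) = 1 := by
  have h1 : d = d' := Subsingleton.elim _ _
  subst h1
  exact h

variable {K : Type} [Field K] [Algebra K Qb]

theorem sum_T {n r : ℕ} (E : Fin n → WeierstrassCurve K) (h : ∀ l, NoCM ((E l)⁄Qb))
    (κ : Fin r → Fin n) (D : ℕ) (i : Fin n) (f : Finset (Fin n) → Cardinal) :
    ∑ T ∈ (Finset.univ.erase i).powerset, mlt E κ D i T * f T = mlt E κ D i ∅ * f ∅ := by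
  refine Finset.sum_eq_single ∅ (fun T hT hne => ?_) fun h1 =>
    absurd (Finset.empty_mem_powerset _) h1
  obtain ⟨l, hl⟩ := Finset.nonempty_iff_ne_empty.2 hne
  rw [mlt_zero E κ D i T hl (Finset.ne_of_mem_erase (Finset.mem_powerset.1 hT hl)) (h l)]
  simp

/-- one curve -/
theorem mlt_one (E : WeierstrassCurve K) {r : ℕ} (κ : Fin r → Fin 1) (D : ℕ) :
    mlt (fun _ : Fin 1 => E) κ D 0 ∅ = bb E r D := by
  unfold mlt
  have hnum : ∀ {m : ℕ} (μ : Fin m → Fin 1), num μ 0 = m := by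
    intro m μ
    unfold num
    rw [Finset.filter_true_of_mem fun x _ => Subsingleton.elim _ _, Finset.card_univ,
      Fintype.card_fin]
  have h1 : (Finset.univ.erase (0 : Fin 1)) = ∅ := by
    ext x
    simp [Subsingleton.elim x 0]
  have h2 : (Finset.univ.filter fun μ : Fin D → Fin 1 => Monotone μ) = {fun _ => 0} := by
    ext μ
    rw [Finset.mem_filter, Finset.mem_singleton]
    refine ⟨fun _ => Subsingleton.elim _ _, ?_⟩
    rintro rfl
    exact ⟨Finset.mem_univ _, fun _ _ _ => le_rfl⟩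
  rw [h2, Finset.sum_singleton, h1, Finset.prod_empty, mul_one, hnum, hnum]

theorem rank_one (K : Type) [Field K] [NumberField K] [Algebra K Qb] {Γ : Grid} (h : PwC Γ)
    (E : WeierstrassCurve K) [E.IsElliptic] (hst : ∀ E E' : WeierstrassCurve Qb, Stb Γ E E')
    (hP : ∀ P : E.toAffine.Point, Mb Γ (constPt Qb P : (E⁄Qb).toAffine.Point)) :
    RankIs Γ (fun _ : Fin 1 => E) fun r _ D =>
      (bb E r D : Cardinal) * Module.rank ℤ E.toAffine.Point := by
  intro r κ D F _ _ ξ hξ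
  have h1 := ranks K h 1 (fun _ => E) (fun _ => inferInstance) (fun _ => Or.inr (hst _ _))
    (fun i j hij => absurd (Subsingleton.elim i j) hij) r κ D F ξ hξ
  refine h1.trans ?_
  show ∑ i : Fin 1, ∑ T ∈ (Finset.univ.erase i).powerset,
    (mlt (fun _ : Fin 1 => E) κ D i T : Cardinal) * rk (GT Γ (fun _ : Fin 1 => E) i T) =
      (bb E r D : Cardinal) * Module.rank ℤ E.toAffine.Point
  rw [Fin.sum_univ_one]
  have h2 : (Finset.univ.erase (0 : Fin 1)).powerset = {∅} := by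
    have h3 : (Finset.univ.erase (0 : Fin 1)) = ∅ := by
      ext x
      simp [Subsingleton.elim x 0]
    rw [h3, Finset.powerset_empty]
  rw [h2, Finset.sum_singleton, mlt_one, rk_GT_empty K (fun _ : Fin 1 => E) 0 hP]

theorem rank_set {Γ : Grid} (h : PwC Γ) (hst : ∀ E E' : WeierstrassCurve Qb, Stb Γ E E')
    {n : ℕ} (E : Fin n → WeierstrassCurve ℚ) (hE : ∀ i, (E i).IsElliptic)
    (hcm : ∀ i, NoCM ((E i)⁄Qb)) (hr : ∀ i, Module.rank ℤ (E i).toAffine.Point = 1)
    (hP : ∀ i, ∀ P : (E i).toAffine.Point, Mb Γ (constPt Qb P : ((E i)⁄Qb).toAffine.Point))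
    (hni : ∀ i j, i ≠ j → ∀ (φ : Hom ((E i)⁄Qb) ((E j)⁄Qb)) P Q, Sd φ P Q → Q = 0) :
    RankIs Γ E fun _ κ D => ∑ i, (mlt E κ D i ∅ : Cardinal) := by
  intro r κ D F _ _ ξ hξ
  refine (ranks ℚ h n E hE (fun _ => Or.inr (hst _ _)) hni r κ D F ξ hξ).trans ?_
  refine Finset.sum_congr rfl fun i _ => ?_
  rw [sum_T E hcm, rk_GT_empty ℚ E i (hP i), rank_irrel (E i) _ _ (hr i), mul_one]

end Pool.Agent.LibEQ34
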